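import Pool.Agent.H58.RHC.Cmp
import Pool.Agent.H85.Rho.Defs

/-!
# All moduli above `y^(1 - 1/(A log log y))` are free
-/

set_option autoImplicit false

open Finset

namespace RHC

/-- `exp (log y / (A log log y))` -/
noncomputable def TA (A : ℝ) (y : ℕ) : ℝ := Real.exp (Real.log y / (A * Real.log (Real.log y)))

theorem tendsto_log0 : Filter.Tendsto (fun y : ℕ => Real.log (y : ℝ)) Filter.atTop Filter.atTop :=
  Real.tendsto_log_atTop.comp tendsto_natCast_atTop_atTop

theorem ev_ll (A c : ℝ) (hA : 0 < A) :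
    ∀ᶠ y : ℕ in Filter.atTop, c ≤ Real.log y / (A * Real.log (Real.log y)) := by
  have h1 : ∀ᶠ u : ℝ in Filter.atTop, |c| * A * Real.log u ≤ u := by
    have h := (Real.isLittleO_log_id_atTop).bound (c := 1 / (|c| * A + 1)) (by positivity)
    filter_upwards [h, Filter.eventually_ge_atTop 1] with u h2 h3
    simp only [id, Real.norm_eq_abs] at h2
    rw [abs_of_nonneg (Real.log_nonneg h3), abs_of_nonneg (show 0 ≤ u by linarith)] at h2
    have h4 : (|c| * A + 1) * Real.log u ≤ u := by
      calc (|c| * A + 1) * Real.log u ≤ (|c| * A + 1) * (1 / (|c| * A + 1) * u) :=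
            mul_le_mul_of_nonneg_left h2 (by positivity)
        _ = u := by field_simp
    have h5 := Real.log_nonneg h3
    nlinarith
  filter_upwards [tendsto_log0.eventually h1,
    (Real.tendsto_log_atTop.comp tendsto_log0).eventually_ge_atTop 1] with y h2 h3
  simp only [Function.comp] at h3
  rw [le_div_iff₀ (by positivity)]
  have h4 : c ≤ |c| := le_abs_self c
  calc c * (A * Real.log (Real.log y)) ≤ |c| * (A * Real.log (Real.log y)) :=
        mul_le_mul_of_nonneg_right h4 (by positivity)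
    _ = |c| * A * Real.log (Real.log y) := by ring
    _ ≤ _ := h2

/-- **All large moduli are free.** -/
theorem free (B : ℝ) : ∃ A : ℝ, 1 ≤ A ∧ ∀ᶠ y : ℕ in Filter.atTop,
    ∃ U : Finset ℕ, U ⊆ Icc 1 y ∧ (U.card : ℝ) ≤ y / (Real.log y) ^ B ∧
      ∀ q : ℕ, (y : ℝ) / TA A y ≤ q → ∃ r : ℕ, ∀ n ∈ Icc 1 y, n ≡ r [MOD q] → n ∈ U := by
  set A : ℝ := 8 * |B| + 16 with hA
  have hA1 : 1 ≤ A := by have := abs_nonneg B; linarith
  have hA0 : 0 < A := by linarith
  refine ⟨A, hA1, ?_⟩
  filter_upwards [ev_ll A 4 hA0, tendsto_log0.eventually_ge_atTop 16,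
    (Real.tendsto_log_atTop.comp tendsto_log0).eventually_ge_atTop 1,
    Filter.eventually_ge_atTop 3] with y h4 hu16 hv1 hy3
  simp only [Function.comp] at hv1
  set u : ℝ := Real.log (y : ℝ) with hu
  set v : ℝ := Real.log u with hv
  have hu0 : 0 < u := by linarith
  have hv0 : 0 < v := by linarith
  have hy0 : (0 : ℝ) < y := by
    have : 0 < y := by omega
    exact_mod_cast this
  have hyexp : Real.exp u = y := Real.exp_log hy0
  have huexp : Real.exp v = u := Real.exp_log hu0
  set t : ℝ := u / (A * v) with ht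
  have hTt : TA A y = Real.exp t := rfl
  have htu : t ≤ u := by
    rw [ht]
    apply div_le_self hu0.le
    nlinarith
  set T : ℝ := Real.exp t with hT
  have hT0 : 0 < T := Real.exp_pos _
  have hT1 : 1 ≤ T := Real.one_le_exp (by linarith)
  set K : ℕ := ⌈T⌉₊ with hK
  have hKT : T ≤ K := Nat.le_ceil T
  have hKT2 : (K : ℝ) ≤ 2 * T := by
    have := (Nat.ceil_lt_add_one hT0.le).le
    linarith
  have hK1R : (1 : ℝ) ≤ K := by linarith
  have hK1 : 1 ≤ K := by exact_mod_cast hK1R
  -- the number of digits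
  set J1 : ℕ := Nat.log (8 * K) (2 * y) with hJ1
  have hb1 : (8 * K) ^ J1 ≤ 2 * y := Nat.pow_log_le_self _ (by omega)
  have hb2 : 2 * y < (8 * K) ^ (J1 + 1) := Nat.lt_pow_succ_log_self (by omega) _
  have hlog8K : Real.log (8 * K) ≤ 2 * t := by
    have h5 : (8 * (K : ℝ)) ≤ Real.exp 4 * T := by
      have h6 : (16 : ℝ) ≤ Real.exp 4 := by
        have h7 : (2 : ℝ) ≤ Real.exp 1 := by have := Real.exp_one_gt_d9; linarith
        have h8 : Real.exp 4 = (Real.exp 1) ^ 4 := by
          rw [← Real.exp_nat_mul]; norm_num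
        rw [h8]
        calc (16 : ℝ) = 2 ^ 4 := by norm_num
          _ ≤ _ := pow_le_pow_left₀ (by norm_num) h7 4
      nlinarith
    calc Real.log (8 * K) ≤ Real.log (Real.exp 4 * T) := Real.log_le_log (by linarith) h5
      _ = 4 + t := by rw [Real.log_mul (Real.exp_pos _).ne' hT0.ne', Real.log_exp, hT, Real.log_exp]
      _ ≤ _ := by linarith
  have hJ1' : A * v / 2 < (J1 : ℝ) + 1 := by
    have h5 : u < ((J1 : ℝ) + 1) * Real.log (8 * K) := by
      have h6 : (y : ℝ) < (8 * K : ℝ) ^ (J1 + 1) := by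
        have h7 : (2 * (y : ℝ)) < (8 * K : ℝ) ^ (J1 + 1) := by exact_mod_cast hb2
        linarith
      have h8 := Real.log_lt_log hy0 h6
      rw [Real.log_pow] at h8
      push_cast at h8
      exact h8
    have h6 : u < ((J1 : ℝ) + 1) * (2 * t) :=
      h5.trans_le (mul_le_mul_of_nonneg_left hlog8K (by positivity))
    rw [ht] at h6
    have h7 : ((J1 : ℝ) + 1) * (2 * (u / (A * v))) = u * (((J1 : ℝ) + 1) * 2 / (A * v)) := by
      field_simp
    rw [h7] at h6
    have h8 : 1 < ((J1 : ℝ) + 1) * 2 / (A * v) := by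
      by_contra hcon
      push Not at hcon
      have := mul_le_mul_of_nonneg_left hcon hu0.le
      linarith
    rw [lt_div_iff₀ (by positivity)] at h8
    linarith
  have hAv : 16 ≤ A * v := by nlinarith [abs_nonneg B]
  have hJpos : 1 ≤ J1 := by
    have : (7 : ℝ) < J1 := by linarith
    have : 7 < J1 := by exact_mod_cast this
    omega
  obtain ⟨J, hJ⟩ : ∃ J, J1 = J + 1 := ⟨J1 - 1, by omega⟩
  have hJ' : A * v / 2 - 2 < J := by
    rw [hJ] at hJ1'
    push_cast at hJ1'
    linarith
  have hyJ : (8 * K) ^ (J + 1) ≤ 2 * y := by rw [← hJ]; exact hb1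
  refine ⟨UU K J y, UU_sub K J y, ?_, ?_⟩
  · refine (UU_card hK1 hyJ).trans ?_
    have h34 : (3 / 4 : ℝ) ≤ Real.exp (-(1 / 4)) := by
      have := Real.add_one_le_exp (-(1 / 4) : ℝ)
      linarith
    have hp1 : (3 / 4 : ℝ) ^ J ≤ Real.exp (1 / 2 - A * v / 8) := by
      calc (3 / 4 : ℝ) ^ J ≤ (Real.exp (-(1 / 4))) ^ J := pow_le_pow_left₀ (by norm_num) h34 J
        _ = Real.exp (J * (-(1 / 4))) := by rw [← Real.exp_nat_mul]
        _ ≤ _ := Real.exp_le_exp.mpr (by linarith)
    have hhalf : Real.exp (1 / 2) ≤ 2 := by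
      have h1 : Real.exp (1 / 2) * Real.exp (1 / 2) = Real.exp 1 := by
        rw [← Real.exp_add]; norm_num
      have h2 := Real.exp_one_lt_d9
      have h3 := Real.exp_pos (1 / 2)
      nlinarith
    have hp2 : (3 / 4 : ℝ) ^ J ≤ 2 * Real.exp (-(A * v / 8)) := by
      refine hp1.trans ?_
      rw [sub_eq_add_neg, Real.exp_add]
      exact mul_le_mul_of_nonneg_right hhalf (Real.exp_pos _).le
    have hlogK : Real.log K ≤ 1 + u := by
      calc Real.log K ≤ Real.log (2 * T) := Real.log_le_log (by linarith) hKT2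
        _ = Real.log 2 + t := by
            rw [Real.log_mul (by norm_num) hT0.ne', hT, Real.log_exp]
        _ ≤ 1 + u := by
            have := Real.log_two_lt_d9
            linarith
    have hq : 2 * (4 + 2 * Real.log K) ≤ Real.exp (2 * v) := by
      have h1 : Real.exp (2 * v) = u ^ 2 := by
        rw [← huexp, ← Real.exp_nat_mul]; push_cast; rfl
      rw [h1]
      nlinarith
    have hpos : 0 ≤ 4 + 2 * Real.log K := by
      have := Real.log_natCast_nonneg K
      linarith
    calc (3 / 4 : ℝ) ^ J * y * (4 + 2 * Real.log K) ≤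
        2 * Real.exp (-(A * v / 8)) * y * (4 + 2 * Real.log K) := by gcongr
      _ = y * (Real.exp (-(A * v / 8)) * (2 * (4 + 2 * Real.log K))) := by ring
      _ ≤ y * (Real.exp (-(A * v / 8)) * Real.exp (2 * v)) := by gcongr
      _ ≤ y * Real.exp (-(v * B)) := by
          apply mul_le_mul_of_nonneg_left _ hy0.le
          rw [← Real.exp_add]
          apply Real.exp_le_exp.mpr
          rw [hA]
          have h1 : B ≤ |B| := le_abs_self B
          have h2 : v * B ≤ v * |B| := mul_le_mul_of_nonneg_left h1 hv0.le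
          linarith
      _ = y / u ^ B := by
          rw [Real.rpow_def_of_pos hu0, Real.exp_neg, div_eq_mul_inv]
  · intro q hq
    rw [hTt] at hq
    apply UU_class hK1 hyJ
    have h1 : (y : ℝ) ≤ K * q := by
      rw [div_le_iff₀ hT0] at hq
      have h2 : (0 : ℝ) ≤ q := Nat.cast_nonneg _
      nlinarith
    exact_mod_cast h1

end RHC
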