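import Mathlib

/-!
# Compression of residue classes to large moduli

For every integer `q ≥ y / K` there is a residue class modulo `q` such that the union of all these
classes meets `{1, ..., y}` in at most `(3/4)^J y (4 + 2 log K)` elements, if `(8 K)^(J+1) ≤ 2 y`.
-/

set_option autoImplicit false

open Finset

namespace RHC

/-- `∑ d_j (R - d_j) R^j` over the last `J` digits of `q` in base `R` -/
def xx (R : ℕ) : ℕ → ℕ → ℕ
  | 0, _ => 0
  | J + 1, q => (q % R) * (R - q % R) + R * xx R J (q / R)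

theorem xx_succ (R J q : ℕ) : xx R (J + 1) q = (q % R) * (R - q % R) + R * xx R J (q / R) := rfl

theorem xx_bd {R : ℕ} (hR : 1 ≤ R) (J q : ℕ) :
    4 * (R - 1) * xx R J q + R ^ 2 ≤ R ^ (J + 2) := by
  induction J generalizing q with
  | zero => simp [xx]
  | succ J ih =>
    have h1 := ih (q / R)
    obtain ⟨S, rfl⟩ : ∃ S, R = S + 1 := ⟨R - 1, by omega⟩
    simp only [Nat.add_sub_cancel] at h1 ⊢
    rw [xx_succ]
    set d := q % (S + 1) with hd
    have hdS : d ≤ S + 1 := (Nat.mod_lt _ (by omega)).le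
    obtain ⟨e, he⟩ : ∃ e, S + 1 = d + e := ⟨S + 1 - d, by omega⟩
    have h2 : S + 1 - d = e := by omega
    rw [h2]
    set x := xx (S + 1) J (q / (S + 1)) with hx
    have h3 : 4 * (d * e) ≤ (S + 1) ^ 2 := by
      rw [he]
      zify
      nlinarith [sq_nonneg ((d : ℤ) - e)]
    have h4 : 4 * S * (d * e + (S + 1) * x) + (S + 1) ^ 2 =
        S * (4 * (d * e)) + (S + 1) * (4 * S * x) + (S + 1) ^ 2 := by ring
    rw [h4]
    have h5 : (S + 1) * (4 * S * x + (S + 1) ^ 2) ≤ (S + 1) * (S + 1) ^ (J + 2) :=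
      Nat.mul_le_mul_left _ h1
    have h6 : S * (4 * (d * e)) ≤ S * (S + 1) ^ 2 := Nat.mul_le_mul_left _ h3
    have h7 : (S + 1) ^ (J + 1 + 2) = (S + 1) * (S + 1) ^ (J + 2) := by ring
    rw [h7]
    nlinarith

theorem xx_le {R : ℕ} (hR : 2 ≤ R) (J q : ℕ) : 2 * xx R J q ≤ R ^ (J + 1) := by
  have h := xx_bd (by omega : 1 ≤ R) J q
  have h2 : R ^ (J + 2) ≤ 2 * (R - 1) * R ^ (J + 1) := by
    rw [pow_succ' R (J + 1)]
    exact Nat.mul_le_mul_right _ (by omega)
  have h3 : (2 * (R - 1)) * (2 * xx R J q) ≤ (2 * (R - 1)) * R ^ (J + 1) := by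
    have e : (2 * (R - 1)) * (2 * xx R J q) = 4 * (R - 1) * xx R J q := by ring
    rw [e]
    omega
  exact Nat.le_of_mul_le_mul_left h3 (by omega)

/-- the values of `d (R + k - d)`, `0 ≤ d < R` -/
def VV (R : ℕ) (k : ℤ) : Finset ℤ := (range R).image (fun d : ℕ => (d : ℤ) * (R + k - d))

theorem VV_card {K : ℕ} (hK : 1 ≤ K) {k : ℤ} (hk : |k| ≤ K) : (VV (8 * K) k).card ≤ 6 * K := by
  obtain ⟨hk1, hk2⟩ := abs_le.mp hk
  have hsub : VV (8 * K) k ⊆ (range (9 * K / 2 + 1) ∪ Ioo (7 * K) (8 * K)).image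
      (fun d : ℕ => (d : ℤ) * (((8 * K : ℕ) : ℤ) + k - d)) := by
    intro v hv
    unfold VV at hv
    rw [mem_image] at hv ⊢
    obtain ⟨d, hd, rfl⟩ := hv
    rw [mem_range] at hd
    by_cases h1 : (2 * d : ℤ) ≤ ((8 * K : ℕ) : ℤ) + k
    · refine ⟨d, ?_, rfl⟩
      rw [mem_union, mem_range]
      left
      push_cast at h1
      omega
    · by_cases h2 : (d : ℤ) ≤ ((8 * K : ℕ) : ℤ) + k
      · refine ⟨(((8 * K : ℕ) : ℤ) + k - d).toNat, ?_, ?_⟩
        · rw [mem_union, mem_range]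
          left
          push_cast at h1 h2
          omega
        · have h3 : (((((8 * K : ℕ) : ℤ) + k - d).toNat : ℕ) : ℤ) = ((8 * K : ℕ) : ℤ) + k - d :=
            Int.toNat_of_nonneg (by linarith)
          rw [h3]
          ring
      · refine ⟨d, ?_, rfl⟩
        rw [mem_union, mem_Ioo]
        right
        push_cast at h1 h2
        omega
  refine (card_le_card hsub).trans (card_image_le.trans ((card_union_le _ _).trans ?_))
  rw [card_range, Nat.card_Ioo]
  omega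

/-- the values of `x_q + k q`, `q ≤ Q` -/
def EE (R J : ℕ) (k : ℤ) (Q : ℕ) : Finset ℤ :=
  (range (Q + 1)).image (fun q : ℕ => (xx R J q : ℤ) + k * q)

theorem EE_card {R V : ℕ} (hR : 1 ≤ R) {k : ℤ} (hV : (VV R k).card ≤ V) (J Q : ℕ) :
    (EE R J k Q).card ≤ V ^ J * (Q / R ^ J + 1) := by
  induction J generalizing Q with
  | zero =>
    unfold EE
    refine card_image_le.trans ?_
    simp
  | succ J ih =>
    have hsub : EE R (J + 1) k Q ⊆ ((VV R k) ×ˢ (EE R J k (Q / R))).image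
        (fun p : ℤ × ℤ => p.1 + R * p.2) := by
      intro v hv
      unfold EE at hv
      rw [mem_image] at hv ⊢
      obtain ⟨q, hq, rfl⟩ := hv
      rw [mem_range] at hq
      refine ⟨(((q % R : ℕ) : ℤ) * (R + k - ((q % R : ℕ) : ℤ)),
        (xx R J (q / R) : ℤ) + k * ((q / R : ℕ) : ℤ)), ?_, ?_⟩
      · rw [mem_product]
        constructor
        · unfold VV
          rw [mem_image]
          exact ⟨q % R, mem_range.mpr (Nat.mod_lt _ (by omega)), rfl⟩
        · unfold EE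
          rw [mem_image]
          exact ⟨q / R, mem_range.mpr (Nat.lt_succ_of_le (Nat.div_le_div_right (by omega))), rfl⟩
      · have h1 : (q : ℤ) = ((q % R : ℕ) : ℤ) + R * ((q / R : ℕ) : ℤ) := by
          exact_mod_cast (Nat.mod_add_div q R).symm
        have h2 : (xx R (J + 1) q : ℤ) = ((q % R : ℕ) : ℤ) * (R - ((q % R : ℕ) : ℤ)) +
            R * (xx R J (q / R) : ℤ) := by
          rw [xx_succ]
          have h3 : q % R ≤ R := (Nat.mod_lt _ (by omega)).le
          push_cast [Nat.cast_sub h3]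
          ring
        simp only
        rw [h2]
        conv_rhs => rw [h1]
        ring
    refine (card_le_card hsub).trans (card_image_le.trans ?_)
    rw [card_product]
    calc (VV R k).card * (EE R J k (Q / R)).card ≤ V * (V ^ J * (Q / R / R ^ J + 1)) :=
          Nat.mul_le_mul hV (ih (Q / R))
      _ = V ^ (J + 1) * (Q / R ^ (J + 1) + 1) := by
          rw [Nat.div_div_eq_div_mul, ← pow_succ', pow_succ' V J, mul_assoc]

/-- the union of the classes -/
noncomputable def UU (K J y : ℕ) : Finset ℕ :=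
  (Icc 1 y).filter (fun n => ∃ k ∈ Icc (-(K : ℤ)) K, (n : ℤ) ∈ EE (8 * K) J k (y / max 1 k.natAbs))

theorem UU_sub (K J y : ℕ) : UU K J y ⊆ Icc 1 y := filter_subset _ _

theorem UU_class {K J y : ℕ} (hK : 1 ≤ K) (hy : (8 * K) ^ (J + 1) ≤ 2 * y) {q : ℕ}
    (hq : y ≤ K * q) : ∃ r : ℕ, ∀ n ∈ Icc 1 y, n ≡ r [MOD q] → n ∈ UU K J y := by
  by_cases hqy : y < q
  · refine ⟨0, fun n hn h => ?_⟩
    rw [mem_Icc] at hn
    have := Nat.le_of_dvd (by omega) ((Nat.modEq_zero_iff_dvd).1 h)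
    omega
  · push Not at hqy
    refine ⟨xx (8 * K) J q, fun n hn h => ?_⟩
    have hn' := mem_Icc.mp hn
    have hx : 2 * xx (8 * K) J q ≤ (8 * K) ^ (J + 1) := xx_le (by omega) J q
    have hxy : xx (8 * K) J q ≤ y := by omega
    have hq0 : 0 < q := by
      rcases Nat.eq_zero_or_pos q with h0 | h0
      · subst h0; omega
      · exact h0
    obtain ⟨k, hk⟩ := (Nat.modEq_iff_dvd.mp h.symm)
    have hn2 : (n : ℤ) = (xx (8 * K) J q : ℤ) + k * q := by linarith
    have habs : |k| * q ≤ y := by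
      have h1 : |k * q| ≤ y := by
        have h2 : k * q = (n : ℤ) - xx (8 * K) J q := by linarith
        rw [h2, abs_le]
        constructor
        · have : (xx (8 * K) J q : ℤ) ≤ y := by exact_mod_cast hxy
          have : (0 : ℤ) ≤ n := by positivity
          linarith
        · have : (n : ℤ) ≤ y := by exact_mod_cast hn'.2
          have : (0 : ℤ) ≤ xx (8 * K) J q := by positivity
          linarith
      rwa [abs_mul, abs_of_nonneg (by positivity : (0 : ℤ) ≤ (q : ℤ))] at h1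
    have hkK : |k| ≤ K := by
      have h1 : (y : ℤ) ≤ K * q := by exact_mod_cast hq
      have h2 : |k| * q ≤ K * q := habs.trans h1
      exact le_of_mul_le_mul_right h2 (by exact_mod_cast hq0)
    unfold UU
    rw [mem_filter]
    refine ⟨hn, k, mem_Icc.mpr (abs_le.mp hkK), ?_⟩
    unfold EE
    rw [mem_image]
    refine ⟨q, ?_, hn2.symm⟩
    rw [mem_range]
    apply Nat.lt_succ_of_le
    rw [Nat.le_div_iff_mul_le (by omega)]
    rcases Nat.eq_zero_or_pos k.natAbs with h0 | h0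
    · rw [h0]; simpa using hqy
    · have h1 : max 1 k.natAbs = k.natAbs := by omega
      rw [h1]
      have h2 : ((q * k.natAbs : ℕ) : ℤ) ≤ y := by
        push_cast
        rw [mul_comm]
        exact habs
      exact_mod_cast h2

theorem sum_inv (K : ℕ) : ∑ k ∈ Icc (-(K : ℤ)) K, (1 : ℝ) / ((max 1 k.natAbs : ℕ) : ℝ) =
    1 + 2 * ∑ i ∈ range K, (1 : ℝ) / ((i : ℝ) + 1) := by
  induction K with
  | zero => simp
  | succ K ih =>
    have h1 : Icc (-((K + 1 : ℕ) : ℤ)) ((K + 1 : ℕ) : ℤ) =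
        insert (-((K + 1 : ℕ) : ℤ)) (insert ((K + 1 : ℕ) : ℤ) (Icc (-(K : ℤ)) K)) := by
      ext k
      simp only [mem_insert, mem_Icc]
      push_cast
      omega
    rw [h1, sum_insert, sum_insert, ih, sum_range_succ]
    · have h2 : (max 1 ((K + 1 : ℕ) : ℤ).natAbs : ℕ) = K + 1 := by omega
      have h3 : (max 1 (-((K + 1 : ℕ) : ℤ)).natAbs : ℕ) = K + 1 := by omega
      rw [h2, h3]
      push_cast
      ring
    · rw [mem_Icc]; push_cast; omega
    · rw [mem_insert, mem_Icc]; push_cast; omega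

theorem harm_le (K : ℕ) :
    ∑ i ∈ range K, (1 : ℝ) / ((i : ℝ) + 1) ≤ 1 + Real.log K := by
  have h := harmonic_le_one_add_log K
  have e : ((harmonic K : ℚ) : ℝ) = ∑ i ∈ range K, (1 : ℝ) / ((i : ℝ) + 1) := by
    unfold harmonic
    push_cast
    apply sum_congr rfl
    intro i _
    rw [one_div]
  rw [← e]
  exact h

theorem UU_card {K J y : ℕ} (hK : 1 ≤ K) (hy : (8 * K) ^ (J + 1) ≤ 2 * y) :
    ((UU K J y).card : ℝ) ≤ (3 / 4 : ℝ) ^ J * y * (4 + 2 * Real.log K) := by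
  classical
  have hsub : UU K J y ⊆ (Icc (-(K : ℤ)) K).biUnion
      (fun k => (EE (8 * K) J k (y / max 1 k.natAbs)).image Int.toNat) := by
    intro n hn
    unfold UU at hn
    rw [mem_filter] at hn
    obtain ⟨_, k, hk, hnk⟩ := hn
    rw [mem_biUnion]
    refine ⟨k, hk, ?_⟩
    rw [mem_image]
    exact ⟨n, hnk, by simp⟩
  have h1 : (UU K J y).card ≤ ∑ k ∈ Icc (-(K : ℤ)) K,
      (6 * K) ^ J * (y / max 1 k.natAbs / (8 * K) ^ J + 1) := by
    refine (card_le_card hsub).trans (card_biUnion_le.trans (sum_le_sum fun k hk => ?_))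
    refine card_image_le.trans (EE_card (by omega) (VV_card hK ?_) J _)
    rw [mem_Icc] at hk
    exact abs_le.mpr hk
  have h2 : ((UU K J y).card : ℝ) ≤ ∑ k ∈ Icc (-(K : ℤ)) K,
      ((3 / 4 : ℝ) ^ J * y * (1 / ((max 1 k.natAbs : ℕ) : ℝ)) + (6 * K : ℝ) ^ J) := by
    have h1' : ((UU K J y).card : ℝ) ≤ ((∑ k ∈ Icc (-(K : ℤ)) K,
      (6 * K) ^ J * (y / max 1 k.natAbs / (8 * K) ^ J + 1) : ℕ) : ℝ) := by exact_mod_cast h1
    refine h1'.trans ?_
    push_cast
    apply sum_le_sum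
    intro k _
    have hR0 : (0 : ℝ) < (8 * K : ℝ) ^ J := by positivity
    have h3 : ((y / max 1 k.natAbs / (8 * K) ^ J : ℕ) : ℝ) ≤
        (y : ℝ) / ((max 1 k.natAbs : ℕ) : ℝ) / (8 * K : ℝ) ^ J := by
      refine (Nat.cast_div_le).trans ?_
      push_cast
      apply div_le_div_of_nonneg_right _ hR0.le
      refine (Nat.cast_div_le).trans ?_
      push_cast
      exact le_rfl
    have h4 : (6 * K : ℝ) ^ J = (3 / 4 : ℝ) ^ J * (8 * K : ℝ) ^ J := by
      rw [← mul_pow]; congr 1; ring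
    have h5 : (6 * K : ℝ) ^ J * (((y / max 1 k.natAbs / (8 * K) ^ J : ℕ) : ℝ)) ≤
        (3 / 4 : ℝ) ^ J * y * (1 / ((max 1 k.natAbs : ℕ) : ℝ)) := by
      calc (6 * K : ℝ) ^ J * (((y / max 1 k.natAbs / (8 * K) ^ J : ℕ) : ℝ)) ≤
          (6 * K : ℝ) ^ J * ((y : ℝ) / ((max 1 k.natAbs : ℕ) : ℝ) / (8 * K : ℝ) ^ J) :=
            mul_le_mul_of_nonneg_left h3 (by positivity)
        _ = (3 / 4 : ℝ) ^ J * y * (1 / ((max 1 k.natAbs : ℕ) : ℝ)) := by
            rw [h4]
            have hm : (0 : ℝ) < ((max 1 k.natAbs : ℕ) : ℝ) := by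
              have : 0 < max 1 k.natAbs := by omega
              exact_mod_cast this
            field_simp
    have h6 := h5
    push_cast at h6 ⊢
    rw [mul_add, mul_one]
    linarith
  rw [sum_add_distrib, ← mul_sum, sum_inv, sum_const] at h2
  have hcard : (Icc (-(K : ℤ)) K).card = 2 * K + 1 := by
    rw [Int.card_Icc]; omega
  rw [hcard, nsmul_eq_mul] at h2
  have h7 := harm_le K
  have hK1 : (1 : ℝ) ≤ K := by exact_mod_cast hK
  have h8 : ((2 * K + 1 : ℕ) : ℝ) * (6 * K : ℝ) ^ J ≤ (3 / 4 : ℝ) ^ J * y := by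
    have h4 : (6 * K : ℝ) ^ J = (3 / 4 : ℝ) ^ J * (8 * K : ℝ) ^ J := by
      rw [← mul_pow]; congr 1; ring
    have h9 : (8 * K : ℝ) ^ (J + 1) ≤ 2 * y := by exact_mod_cast hy
    rw [pow_succ] at h9
    rw [h4]
    push_cast
    have h10 : (2 * (K : ℝ) + 1) * (8 * K : ℝ) ^ J ≤ y := by
      have h11 : 0 < (8 * K : ℝ) ^ J := by positivity
      nlinarith
    have h12 : (0 : ℝ) ≤ (3 / 4 : ℝ) ^ J := by positivity
    calc (2 * (K : ℝ) + 1) * ((3 / 4 : ℝ) ^ J * (8 * K : ℝ) ^ J) =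
        (3 / 4 : ℝ) ^ J * ((2 * (K : ℝ) + 1) * (8 * K : ℝ) ^ J) := by ring
      _ ≤ (3 / 4 : ℝ) ^ J * y := mul_le_mul_of_nonneg_left h10 h12
  have h13 : (0 : ℝ) ≤ (3 / 4 : ℝ) ^ J * y := by positivity
  nlinarith

end RHC
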