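import Pool.Agent.H58.RHC.Sv
import Pool.Agent.H7.RhoU.Final

/-!
# Dense admissible sets: `(1 + c / (log log y * log log log y)) π(y)`
-/

set_option autoImplicit false

open Finset Real
open Pool.Agent.H85.Rho hiding PP MM TT

namespace RHC

open RhoU RhoV

/-- the assembly for one `y` -/
theorem assembleC {y w M P : ℕ} {G c : ℝ} (hwP : w ≤ P)
    (hmain : G + c ≤
      ∑ m ∈ Sm w M, fw w m * ((Nat.primeCounting (y / m) : ℝ) - Nat.primeCounting P))
    (hdel : ∃ U : Finset ℕ, (U.card : ℝ) ≤ c ∧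
        ∀ q : ℕ, P < q → ∃ r : ℕ, ∀ n ∈ Finset.Icc 1 y, n ≡ r [MOD q] → n ∈ U) :
    ∃ A : Finset ℕ, A ⊆ Finset.Icc 1 y ∧ Adm A ∧ G ≤ A.card := by
  classical
  set N := NN w M P y with hN
  obtain ⟨a, ha, haN⟩ := exists_classes N w
  set S := N.filter (fun n => ∀ p ∈ pr 0 w, ¬ n ≡ a p [MOD p]) with hSdef
  have hScard : G + c ≤ S.card := hmain.trans ((sum_NN hwP).trans haN)
  have hSN : S ⊆ N := Finset.filter_subset _ _
  have hSy : S ⊆ Finset.Icc 1 y := fun n hn => (NN_bd (hSN hn)).1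
  obtain ⟨U, hUcard, hU⟩ := hdel
  refine ⟨S \ U, Finset.sdiff_subset.trans hSy, ?_, ?_⟩
  · intro p hp
    by_cases hp1 : p ≤ w
    · refine ⟨a p, fun n hn => ?_⟩
      have h4 := (Finset.mem_filter.1 (Finset.mem_sdiff.1 hn).1).2
      exact h4 p (mem_pr.2 ⟨⟨hp.pos, hp1⟩, hp⟩)
    · by_cases hp2 : p ≤ P
      · refine ⟨0, fun n hn hn0 => ?_⟩
        have h4 := (NN_bd (hSN (Finset.mem_sdiff.1 hn).1)).2 p (mem_pr.2 ⟨⟨by omega, hp2⟩, hp⟩)
        exact h4 ((Nat.modEq_zero_iff_dvd).1 hn0)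
      · obtain ⟨r, hr⟩ := hU p (by omega)
        refine ⟨r, fun n hn hnr => ?_⟩
        exact (Finset.mem_sdiff.1 hn).2 (hr n (hSy (Finset.mem_sdiff.1 hn).1) hnr)
  · have h1 : (S.card : ℝ) ≤ (S \ U).card + U.card := by
      have h2 := Finset.le_card_sdiff U S
      have h3 : S.card ≤ (S \ U).card + U.card := by omega
      exact_mod_cast h3
    linarith

/-- **Dense admissible sets.** -/
theorem dense_C : ∃ c : ℝ, 0 < c ∧ ∀ᶠ y : ℕ in Filter.atTop,
    ∃ A : Finset ℕ, A ⊆ Finset.Icc 1 y ∧ Adm A ∧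
      (1 + c / (Real.log (Real.log y) * Real.log (Real.log (Real.log y)))) *
        (Nat.primeCounting y : ℝ) ≤ A.card := by
  obtain ⟨A, hA, hfree⟩ := free 2
  refine ⟨1 / (8 * A), by positivity, ?_⟩
  filter_upwards [hfree, survivors0 hA] with y ⟨U, hUy, hUc, hU⟩ ⟨hwP, hmain⟩
  refine assembleC (w := wA A y) (M := MA A y) (P := PA A y) (c := y / (Real.log y) ^ 2) hwP
    hmain ⟨U, ?_, fun q hq => ?_⟩
  · refine hUc.trans (le_of_eq ?_)
    rw [← Real.rpow_natCast]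
    norm_num
  · apply hU
    have h3 : (y : ℝ) / TA A y < PA A y + 1 := Nat.lt_floor_add_one _
    have h4 : ((PA A y : ℕ) : ℝ) + 1 ≤ q := by exact_mod_cast hq
    linarith

end RHC
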