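import Pool.Agent.H58.RHC.Sv2
import Pool.Agent.H85.RHC.Asy2
import Pool.Agent.H7.RhoU.Final

/-!
# Dense admissible sets, sharp form
-/

set_option autoImplicit false

open Finset Real
open Pool.Agent.H85.Rho hiding PP MM TT

namespace RHC

open RhoU RhoV

/-- the assembly for one `y` -/
theorem assembleS {y w M P : ℕ} {G v : ℝ} (hv : 1 ≤ v) (hwP : w ≤ P)
    (hmain : G ≤ (1 - 1 / v ^ 2) *
      ∑ m ∈ Sm w M, fw w m * ((Nat.primeCounting (y / m) : ℝ) - Nat.primeCounting P))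
    (hdel : ∀ S : Finset ℕ, S ⊆ Icc 1 y → ∃ D : Finset ℕ, D ⊆ S ∧
      (D.card : ℝ) * v ^ 2 ≤ S.card ∧
        ∀ q : ℕ, P < q → ∃ r : ℕ, ∀ n ∈ S, n ≡ r [MOD q] → n ∈ D) :
    ∃ A : Finset ℕ, A ⊆ Finset.Icc 1 y ∧ Adm A ∧ G ≤ A.card := by
  classical
  set N := NN w M P y with hN
  obtain ⟨a, ha, haN⟩ := exists_classes N w
  set S := N.filter (fun n => ∀ p ∈ pr 0 w, ¬ n ≡ a p [MOD p]) with hSdef
  have hScard : ∑ m ∈ Sm w M, fw w m * ((Nat.primeCounting (y / m) : ℝ) - Nat.primeCounting P) ≤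
      S.card := (sum_NN hwP).trans haN
  have hSN : S ⊆ N := Finset.filter_subset _ _
  have hSy : S ⊆ Finset.Icc 1 y := fun n hn => (NN_bd (hSN hn)).1
  obtain ⟨D, hDS, hDcard, hD⟩ := hdel S hSy
  refine ⟨S \ D, Finset.sdiff_subset.trans hSy, ?_, ?_⟩
  · intro p hp
    by_cases hp1 : p ≤ w
    · refine ⟨a p, fun n hn => ?_⟩
      have h4 := (Finset.mem_filter.1 (Finset.mem_sdiff.1 hn).1).2
      exact h4 p (mem_pr.2 ⟨⟨hp.pos, hp1⟩, hp⟩)
    · by_cases hp2 : p ≤ P
      · refine ⟨0, fun n hn hn0 => ?_⟩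
        have h4 := (NN_bd (hSN (Finset.mem_sdiff.1 hn).1)).2 p (mem_pr.2 ⟨⟨by omega, hp2⟩, hp⟩)
        exact h4 ((Nat.modEq_zero_iff_dvd).1 hn0)
      · obtain ⟨r, hr⟩ := hD p (by omega)
        refine ⟨r, fun n hn hnr => ?_⟩
        exact (Finset.mem_sdiff.1 hn).2 (hr n (Finset.mem_sdiff.1 hn).1 hnr)
  · have h1 : ((S \ D).card : ℝ) = S.card - D.card := by
      rw [Finset.card_sdiff_of_subset hDS, Nat.cast_sub (Finset.card_le_card hDS)]
    have hv2 : (1 : ℝ) ≤ v ^ 2 := by nlinarith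
    have h2 : (D.card : ℝ) ≤ 1 / v ^ 2 * S.card := by
      rw [div_mul_eq_mul_div, le_div_iff₀ (by linarith), one_mul]
      exact hDcard
    have h3 : 0 ≤ 1 - 1 / v ^ 2 := by
      have : 1 / v ^ 2 ≤ 1 := by rw [div_le_one (by linarith)]; exact hv2
      linarith
    have h4 := hmain.trans (mul_le_mul_of_nonneg_left hScard h3)
    rw [h1]
    linarith

/-- **Dense admissible sets, sharp form.** -/
theorem dense_S {c : ℝ} (hc : c < Real.log 2) : ∀ᶠ y : ℕ in Filter.atTop,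
    ∃ A : Finset ℕ, A ⊆ Finset.Icc 1 y ∧ Adm A ∧
      (1 + c * Real.log (Real.log (Real.log (Real.log y))) /
        (Real.log (Real.log y) * Real.log (Real.log (Real.log y)))) *
        (Nat.primeCounting y : ℝ) ≤ A.card := by
  have hl2 : 0 < Real.log 2 := Real.log_pos (by norm_num)
  have hl2' : Real.log 2 < 1 := by
    have := Real.log_two_lt_d9
    linarith
  obtain ⟨c', hc'⟩ : ∃ c' : ℝ, c' = max c 0 := ⟨_, rfl⟩
  have hcc' : c ≤ c' := by rw [hc']; exact le_max_left _ _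
  have hc'0 : 0 ≤ c' := by rw [hc']; exact le_max_right _ _
  have hc'2 : c' < Real.log 2 := by rw [hc']; exact max_lt hc hl2
  obtain ⟨s, hs⟩ : ∃ s : ℝ, s = (Real.log 2 - c') / 4 := ⟨_, rfl⟩
  have hs0 : 0 < s := by rw [hs]; linarith
  have hs1 : s ≤ 1 := by rw [hs]; linarith
  have hη0 : 0 < Real.log 2 - s := by rw [hs]; linarith
  have h1 : c' * (1 + s) < Real.log 2 - s := by
    have h2 : c' * s ≤ 1 * s := mul_le_mul_of_nonneg_right (by linarith) hs0.le
    have h3 : 4 * s = Real.log 2 - c' := by rw [hs]; ring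
    linarith
  have hll : Filter.Tendsto (fun y : ℕ => Real.log (Real.log (y : ℝ))) Filter.atTop Filter.atTop :=
    Real.tendsto_log_atTop.comp tendsto_logN
  have hlll : Filter.Tendsto (fun y : ℕ => Real.log (Real.log (Real.log (y : ℝ)))) Filter.atTop
      Filter.atTop := Real.tendsto_log_atTop.comp hll
  have hllll : Filter.Tendsto (fun y : ℕ => Real.log (Real.log (Real.log (Real.log (y : ℝ)))))
      Filter.atTop Filter.atTop := Real.tendsto_log_atTop.comp hlll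
  filter_upwards [free2 s hs0 (by linarith), survivors2 hη0 (by linarith) hs0 hs1 hc'0 h1,
    hll.eventually_ge_atTop 1, hlll.eventually_ge_atTop 1, hllll.eventually_ge_atTop 1]
    with y hfree ⟨hwP, hmain⟩ hv hL hQ
  obtain ⟨A, hA1, hA2, hA3⟩ := assembleS (M := M2 (Real.log 2 - s) y) hv hwP hmain
    (fun S hS => by
      obtain ⟨D, h3, h4, h5⟩ := hfree S hS
      refine ⟨D, h3, h4, fun q hq => h5 q ?_⟩
      have h6 : (y : ℝ) / T2 (Real.log 2 - s) y < P2 (Real.log 2 - s) y + 1 :=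
        Nat.lt_floor_add_one _
      have h7 : ((P2 (Real.log 2 - s) y : ℕ) : ℝ) + 1 ≤ q := by exact_mod_cast hq
      exact (h6.trans_le h7).le)
  refine ⟨A, hA1, hA2, le_trans ?_ hA3⟩
  apply mul_le_mul_of_nonneg_right _ (Nat.cast_nonneg _)
  rw [mul_div_assoc]
  have h8 : 0 ≤ Real.log (Real.log (Real.log (Real.log (y : ℝ)))) /
      (Real.log (Real.log y) * Real.log (Real.log (Real.log y))) := by positivity
  have h9 := mul_le_mul_of_nonneg_right hcc' h8
  linarith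

end RHC
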