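import Pool.Agent.H58.RHC.Asy
import Pool.Agent.H7.RhoV.SurvV

/-!
# Real inequalities for the sharp form
-/

set_option autoImplicit false

open Finset Real
open Pool.Agent.H85.Rho hiding PP MM TT

namespace RHC

open RhoU RhoV

theorem arith2 {u v y C Cg e A1 A2 r t pp S1 S2 g0 g1 c : ℝ} (hu0 : 0 < u) (hv1 : 2 ≤ v)
    (hy0 : 0 < y) (hC : 0 < C) (he0 : 0 < e) (hA1lo : 1 - e ≤ A1)
    (hA1up : A1 ≤ 1) (hA2lo : r - 2 - Cg - 2 * t * e ≤ A2) (h5 : r / u = g0)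
    (h6 : t / u ≤ 1) (hg01 : g0 ≤ 1) (hg10 : 0 ≤ g1) (hg11 : g1 ≤ 1)
    (hc0 : 0 ≤ c) (hc1 : c ≤ 1) (hCg : 0 < Cg)
    (hfin' : c * g1 + 13 * e + (6 * C + 2 + Cg) / u + 2 / v ^ 2 ≤ g0)
    (hpiy : pp ≤ y / u + C * y / u ^ 2)
    (hsum1 : y * (1 / u - 4 * C / u ^ 2) * A1 + y / u ^ 2 * A2 ≤ S1)
    (hsum2 : S2 ≥ S1 - 10 * (y / u) * e) :
    (1 + c * g1) * pp ≤ (1 - 1 / v ^ 2) * S2 := by
  have hv0 : 0 < v := by linarith
  obtain ⟨R, hR⟩ : ∃ R : ℝ, R = y / u := ⟨_, rfl⟩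
  have hR0 : 0 < R := by rw [hR]; positivity
  have hyR : y = R * u := by rw [hR]; field_simp
  subst hyR
  have ex : R * u / u = R := by field_simp
  rw [ex] at hsum2 hpiy
  have e6 : R * u / u ^ 2 = R * (1 / u) := by field_simp
  have e7 : C * (R * u) / u ^ 2 = R * (C / u) := by field_simp
  rw [e6] at hsum1
  rw [e7] at hpiy
  have h1 : R * u * (1 / u - 4 * C / u ^ 2) * A1 ≥ R * (1 - e) - R * (4 * (C / u)) := by
    have h2 : R * u * (1 / u - 4 * C / u ^ 2) * A1 = R * A1 - R * (4 * (C / u)) * A1 := by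
      field_simp
    have h3 : R * (1 - e) ≤ R * A1 := mul_le_mul_of_nonneg_left hA1lo hR0.le
    have h5 : R * (4 * (C / u)) * A1 ≤ R * (4 * (C / u)) :=
      mul_le_of_le_one_right (by positivity) hA1up
    rw [h2]
    linarith
  have h2 : R * (1 / u) * A2 ≥ R * (g0 - (2 + Cg) / u - 2 * e) := by
    have h3 : R * (1 / u) * A2 ≥ R * (1 / u) * (r - 2 - Cg - 2 * t * e) :=
      mul_le_mul_of_nonneg_left hA2lo (by positivity)
    have h4 : R * (1 / u) * (r - 2 - Cg - 2 * t * e) =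
        R * (r / u - (2 + Cg) / u - 2 * (t / u) * e) := by
      field_simp
      ring
    have h7 : 2 * (t / u) * e ≤ 2 * e := by nlinarith
    have h8 : R * (r / u - (2 + Cg) / u - 2 * (t / u) * e) ≥
        R * (g0 - (2 + Cg) / u - 2 * e) := by
      apply mul_le_mul_of_nonneg_left _ hR0.le
      rw [h5]
      linarith
    linarith
  have hS2 : R * (1 + g0 - 13 * e - 4 * (C / u) - (2 + Cg) / u) ≤ S2 := by
    have h3 : R * (1 + g0 - 13 * e - 4 * (C / u) - (2 + Cg) / u) =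
      R * (1 - e) - R * (4 * (C / u)) + R * (g0 - (2 + Cg) / u - 2 * e) - 10 * R * e := by ring
    rw [h3]
    linarith
  have hcg : c * g1 ≤ 1 := by nlinarith
  have hcg0 : 0 ≤ c * g1 := by positivity
  have hCu : 0 ≤ C / u := by positivity
  have h9 : (1 + c * g1) * pp ≤ R * (1 + c * g1 + 2 * (C / u)) := by
    have h10 : pp ≤ R * (1 + C / u) := by linarith
    calc (1 + c * g1) * pp ≤ (1 + c * g1) * (R * (1 + C / u)) :=
          mul_le_mul_of_nonneg_left h10 (by linarith)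
      _ = R * ((1 + c * g1) * (1 + C / u)) := by ring
      _ ≤ R * (1 + c * g1 + 2 * (C / u)) := by
          apply mul_le_mul_of_nonneg_left _ hR0.le
          nlinarith
  have hv2 : 0 < v ^ 2 := by positivity
  have hiv : 1 / v ^ 2 ≤ 1 := by
    rw [div_le_one hv2]; nlinarith
  have hiv0 : 0 < 1 / v ^ 2 := by positivity
  have e8 : (6 * C + 2 + Cg) / u = 6 * (C / u) + (2 + Cg) / u := by
    field_simp
    ring
  have e9 : 2 / v ^ 2 = 2 * (1 / v ^ 2) := by ring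
  rw [e8, e9] at hfin'
  obtain ⟨z, hz⟩ : ∃ z, z = 1 + g0 - 13 * e - 4 * (C / u) - (2 + Cg) / u := ⟨_, rfl⟩
  rw [← hz] at hS2
  have hz2 : z ≤ 2 := by
    have h12 : 0 ≤ (2 + Cg) / u := by positivity
    rw [hz]
    linarith
  have hz1 : 1 + c * g1 + 2 * (C / u) + 2 * (1 / v ^ 2) ≤ z := by
    rw [hz]
    linarith
  have h13 : (1 - 1 / v ^ 2) * (R * z) ≤ (1 - 1 / v ^ 2) * S2 :=
    mul_le_mul_of_nonneg_left hS2 (by linarith)
  have h14 : R * (1 + c * g1 + 2 * (C / u)) ≤ (1 - 1 / v ^ 2) * (R * z) := by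
    have h15 : (1 - 1 / v ^ 2) * (R * z) = R * (z - z * (1 / v ^ 2)) := by ring
    rw [h15]
    apply mul_le_mul_of_nonneg_left _ hR0.le
    have h16 : z * (1 / v ^ 2) ≤ 2 * (1 / v ^ 2) := mul_le_mul_of_nonneg_right hz2 hiv0.le
    linarith
  linarith

/-- the primes up to `y / m` -/
theorem term_bd {C x0 : ℝ} (hC : 0 < C) (hpi : ∀ x : ℝ, x0 ≤ x →
    |(Nat.primeCounting ⌊x⌋₊ : ℝ) - x / Real.log x| ≤ C * x / (Real.log x) ^ 2)
    {y m : ℕ} {f : ℝ} (hy0 : (0 : ℝ) < y) (hu0 : 0 < Real.log y)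
    (hx0e : x0 ≤ Real.exp (Real.log y / 2)) (hym : Real.exp (Real.log y / 2) ≤ (y : ℝ) / m)
    (hm1 : (1 : ℝ) ≤ m) (hf : 0 ≤ f) :
    f / m * (y * (1 / Real.log y + Real.log m / (Real.log y) ^ 2 - 4 * C / (Real.log y) ^ 2)) ≤
      f * (Nat.primeCounting (y / m) : ℝ) := by
  set u : ℝ := Real.log (y : ℝ) with hu
  have hm0 : (0 : ℝ) < m := by linarith
  have h1 := hpi ((y : ℝ) / m) (hx0e.trans hym)
  rw [Nat.floor_div_eq_div] at h1
  have h2 := (abs_le.mp h1).1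
  have hl : Real.log ((y : ℝ) / m) = u - Real.log m := by
    rw [Real.log_div hy0.ne' hm0.ne']
  have hl2 : u / 2 ≤ Real.log ((y : ℝ) / m) := by
    rw [Real.le_log_iff_exp_le (by positivity)]; exact hym
  have hl0 : 0 < Real.log ((y : ℝ) / m) := by linarith
  have hlm : 0 ≤ Real.log m := Real.log_nonneg hm1
  have h3 : ((y : ℝ) / m) * (1 / u + Real.log m / u ^ 2) ≤ ((y : ℝ) / m) / Real.log ((y : ℝ) / m) := by
    rw [le_div_iff₀ hl0, mul_assoc]
    apply mul_le_of_le_one_right (by positivity)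
    rw [hl]
    have e : (1 / u + Real.log m / u ^ 2) * (u - Real.log m) = 1 - (Real.log m) ^ 2 / u ^ 2 := by
      field_simp
      ring
    rw [e]
    have : 0 ≤ (Real.log m) ^ 2 / u ^ 2 := by positivity
    linarith
  have h4 : C * ((y : ℝ) / m) / (Real.log ((y : ℝ) / m)) ^ 2 ≤ ((y : ℝ) / m) * (4 * C / u ^ 2) := by
    have h5 : (u / 2) ^ 2 ≤ (Real.log ((y : ℝ) / m)) ^ 2 := pow_le_pow_left₀ (by positivity) hl2 2
    calc C * ((y : ℝ) / m) / (Real.log ((y : ℝ) / m)) ^ 2 ≤ C * ((y : ℝ) / m) / (u / 2) ^ 2 := by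
          gcongr
      _ = _ := by field_simp; ring
  have h6 : ((y : ℝ) / m) * (1 / u + Real.log m / u ^ 2 - 4 * C / u ^ 2) ≤
      (Nat.primeCounting (y / m) : ℝ) := by
    have e : ((y : ℝ) / m) * (1 / u + Real.log m / u ^ 2 - 4 * C / u ^ 2) =
      ((y : ℝ) / m) * (1 / u + Real.log m / u ^ 2) - ((y : ℝ) / m) * (4 * C / u ^ 2) := by ring
    rw [e]
    linarith
  calc f / m * (y * (1 / u + Real.log m / u ^ 2 - 4 * C / u ^ 2)) =
        f * (((y : ℝ) / m) * (1 / u + Real.log m / u ^ 2 - 4 * C / u ^ 2)) := by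
        field_simp
    _ ≤ _ := mul_le_mul_of_nonneg_left h6 hf


/-- `exp (η log y / log log y)` -/
noncomputable def T2 (η : ℝ) (y : ℕ) : ℝ := Real.exp (η * Real.log y / Real.log (Real.log y))

/-- `⌊T⌋` -/
noncomputable def M2 (η : ℝ) (y : ℕ) : ℕ := ⌊T2 η y⌋₊

/-- `⌊y / T⌋` -/
noncomputable def P2 (η : ℝ) (y : ℕ) : ℕ := ⌊(y : ℝ) / T2 η y⌋₊

/-- `u_0 = (1 + ε) log_3 y / log_4 y` -/
noncomputable def U2 (ε : ℝ) (y : ℕ) : ℝ :=
  (1 + ε) * Real.log (Real.log (Real.log y)) / Real.log (Real.log (Real.log (Real.log y)))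

/-- the smoothness parameter -/
noncomputable def w2 (η ε : ℝ) (y : ℕ) : ℕ :=
  ⌊Real.exp ((η * Real.log y / Real.log (Real.log y) - 1) / U2 ε y)⌋₊

theorem ev_lin (k : ℕ) {b κ : ℝ} (hb : 0 < b) (hκ : 0 < κ) (E : ℝ) :
    ∀ᶠ x : ℝ in Filter.atTop, |E| * x ^ k * Real.exp (-(b * x)) ≤ κ := by
  have h := (isLittleO_pow_exp_pos_mul_atTop k hb).bound (c := κ / (|E| + 1)) (by positivity)
  filter_upwards [h, Filter.eventually_ge_atTop 0] with x h1 h2
  rw [Real.norm_of_nonneg (by positivity), Real.norm_of_nonneg (by positivity)] at h1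
  rw [Real.exp_neg, ← div_eq_mul_inv, div_le_iff₀ (Real.exp_pos _)]
  have h3 : |E| * x ^ k ≤ (|E| + 1) * x ^ k := by
    apply mul_le_mul_of_nonneg_right _ (by positivity)
    linarith
  calc |E| * x ^ k ≤ (|E| + 1) * x ^ k := h3
    _ ≤ (|E| + 1) * (κ / (|E| + 1) * Real.exp (b * x)) :=
        mul_le_mul_of_nonneg_left h1 (by positivity)
    _ = κ * Real.exp (b * x) := by field_simp

theorem ev_fin2 {κ δ : ℝ} (hκ : 0 < κ) (hδ : 0 < δ) (E : ℝ) :
    ∀ᶠ v : ℝ in Filter.atTop, 13 * Real.exp (-((1 + δ) * Real.log v)) + E / Real.exp v +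
      2 / v ^ 2 ≤ κ * (Real.log (Real.log v) / (v * Real.log v)) := by
  have hlog := Real.tendsto_log_atTop
  filter_upwards [hlog.eventually (ev_lin 1 hδ (show 0 < κ / 3 by positivity) 13),
    ev_lin 2 one_pos (show 0 < κ / 3 by positivity) E,
    hlog.eventually (ev_lin 1 one_pos (show 0 < κ / 3 by positivity) 2),
    (hlog.comp hlog).eventually_ge_atTop 1, hlog.eventually_ge_atTop 1,
    Filter.eventually_ge_atTop 1] with v h1 h2 h3 h4 h5 h6
  simp only [Function.comp] at h4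
  have hv0 : 0 < v := by linarith
  have hLv : Real.log v ≤ v := by
    have := Real.log_le_sub_one_of_pos hv0
    linarith
  have hve : Real.exp (Real.log v) = v := Real.exp_log hv0
  set L := Real.log v
  have hL0 : 0 < L := by linarith
  have hvL : 0 < v * L := by positivity
  have e1 : 13 * Real.exp (-((1 + δ) * L)) ≤ κ / 3 * (1 / (v * L)) := by
    rw [mul_one_div, le_div_iff₀ hvL]
    have h7 : Real.exp (-((1 + δ) * L)) * v = Real.exp (-(δ * L)) := by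
      conv_lhs => rw [← hve]
      rw [← Real.exp_add]
      congr 1
      ring
    calc 13 * Real.exp (-((1 + δ) * L)) * (v * L) = 13 * L * (Real.exp (-((1 + δ) * L)) * v) := by
          ring
      _ = |(13 : ℝ)| * L ^ 1 * Real.exp (-(δ * L)) := by
          rw [h7, abs_of_pos (by norm_num : (0 : ℝ) < 13), pow_one]
      _ ≤ κ / 3 := h1
  have e2 : E / Real.exp v ≤ κ / 3 * (1 / (v * L)) := by
    rw [mul_one_div, le_div_iff₀ hvL]
    have h7 : E / Real.exp v ≤ |E| * Real.exp (-v) := by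
      rw [Real.exp_neg, ← div_eq_mul_inv]
      exact div_le_div_of_nonneg_right (le_abs_self E) (Real.exp_pos v).le
    calc E / Real.exp v * (v * L) ≤ |E| * Real.exp (-v) * (v * L) :=
          mul_le_mul_of_nonneg_right h7 hvL.le
      _ ≤ |E| * Real.exp (-v) * (v * v) := by gcongr
      _ = |E| * v ^ 2 * Real.exp (-(1 * v)) := by rw [one_mul]; ring
      _ ≤ κ / 3 := h2
  have e3 : 2 / v ^ 2 ≤ κ / 3 * (1 / (v * L)) := by
    rw [mul_one_div, le_div_iff₀ hvL]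
    have h7 : Real.exp (-(1 * L)) = 1 / v := by
      rw [one_mul, Real.exp_neg, hve, one_div]
    calc 2 / v ^ 2 * (v * L) = |(2 : ℝ)| * L ^ 1 * Real.exp (-(1 * L)) := by
          rw [h7, abs_of_pos (by norm_num : (0 : ℝ) < 2), pow_one]
          field_simp
      _ ≤ κ / 3 := h3
  have e4 : κ / 3 * (1 / (v * L)) + κ / 3 * (1 / (v * L)) + κ / 3 * (1 / (v * L)) ≤
      κ * (Real.log L / (v * L)) := by
    have e5 : κ / 3 * (1 / (v * L)) + κ / 3 * (1 / (v * L)) + κ / 3 * (1 / (v * L)) =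
      κ * (1 / (v * L)) := by ring
    rw [e5]
    apply mul_le_mul_of_nonneg_left _ hκ.le
    exact div_le_div_of_nonneg_right h4 hvL.le
  linarith


theorem par_t {u v η : ℝ} (hη0 : 0 < η) (hη1 : η ≤ 1) (huexp : Real.exp v = u) (hv4 : 4 ≤ v)
    (hvt : 23 / η * v ^ 3 ≤ Real.exp v) : 23 * v ^ 2 ≤ η * u / v ∧ η * u / v ≤ u / 2 := by
  have hv0 : 0 < v := by linarith
  have hu0 : 0 < u := by rw [← huexp]; exact Real.exp_pos v
  constructor
  · rw [le_div_iff₀ hv0]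
    rw [huexp, div_mul_eq_mul_div, div_le_iff₀ hη0] at hvt
    linarith
  · rw [div_le_div_iff₀ hv0 (by norm_num)]
    calc η * u * 2 ≤ 1 * u * 2 := by gcongr
      _ = u * 2 := by ring
      _ ≤ u * v := by gcongr; linarith

theorem par_U {v L Q ε : ℝ} (hε0 : 0 < ε) (hε1 : ε ≤ 1) (hvexp : Real.exp L = v)
    (hLexp : Real.exp Q = L) (hQ : 160 ≤ Q) (hQlog : Real.log Q ≤ ε / 4 * Q) :
    1 ≤ (1 + ε) * L / Q ∧ (1 + ε) * L / Q ≤ 2 * v ∧
      (1 - ε / 4) * Q ≤ Real.log ((1 + ε) * L / Q) := by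
  have hQ0 : 0 < Q := by linarith
  have hL0 : 0 < L := by rw [← hLexp]; exact Real.exp_pos _
  have hQL : Q ≤ L := by
    have := Real.add_one_le_exp Q
    linarith
  have hLv : L ≤ v := by
    have := Real.add_one_le_exp L
    linarith
  refine ⟨?_, ?_, ?_⟩
  · rw [le_div_iff₀ hQ0, one_mul]
    calc Q ≤ 1 * L := by linarith
      _ ≤ (1 + ε) * L := by gcongr; linarith
  · rw [div_le_iff₀ hQ0]
    calc (1 + ε) * L ≤ 2 * v := by
          apply mul_le_mul (by linarith) hLv hL0.le (by norm_num)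
      _ = 2 * v * 1 := by ring
      _ ≤ 2 * v * Q := by
          apply mul_le_mul_of_nonneg_left (by linarith)
          linarith
  · rw [Real.log_div (by positivity) hQ0.ne', Real.log_mul (by positivity) hL0.ne']
    have h1 : 0 ≤ Real.log (1 + ε) := Real.log_nonneg (by linarith)
    have h2 : Real.log L = Q := by rw [← hLexp, Real.log_exp]
    rw [h2]
    linarith

theorem par_r {v t U : ℝ} (hv4 : 4 ≤ v) (ht : 23 * v ^ 2 ≤ t) (hU1 : 1 ≤ U) (hU2 : U ≤ 2 * v) :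
    11 * v ≤ (t - 1) / U ∧ (t - 1) / U ≤ t ∧ t / U - 1 ≤ (t - 1) / U := by
  have hU0 : 0 < U := by linarith
  have ht0 : 0 < t := by nlinarith
  refine ⟨?_, ?_, ?_⟩
  · rw [le_div_iff₀ hU0]
    have h1 : 11 * v * U ≤ 11 * v * (2 * v) := mul_le_mul_of_nonneg_left hU2 (by linarith)
    nlinarith
  · rw [div_le_iff₀ hU0]
    nlinarith
  · rw [sub_div]
    have : 1 / U ≤ 1 := by rw [div_le_one hU0]; exact hU1
    linarith

theorem floor_bds {r : ℝ} (hr : 1 ≤ r) :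
    (0 : ℝ) < (⌊Real.exp r⌋₊ : ℝ) ∧ Real.log (⌊Real.exp r⌋₊ : ℝ) ≤ r ∧
      r - 1 ≤ Real.log (⌊Real.exp r⌋₊ : ℝ) ∧ 1 ≤ ⌊Real.exp r⌋₊ := by
  have hle : (⌊Real.exp r⌋₊ : ℝ) ≤ Real.exp r := Nat.floor_le (Real.exp_pos r).le
  have hge : Real.exp (r - 1) ≤ (⌊Real.exp r⌋₊ : ℝ) := by
    have h1 : Real.exp r < (⌊Real.exp r⌋₊ : ℝ) + 1 := Nat.lt_floor_add_one _
    have h2 : 2 ≤ Real.exp 1 := by have := Real.exp_one_gt_d9; linarith
    have h3 : Real.exp (r - 1) * Real.exp 1 = Real.exp r := by rw [← Real.exp_add]; ring_nf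
    have h4 : 1 ≤ Real.exp (r - 1) := Real.one_le_exp (by linarith)
    nlinarith
  have h0 : (0 : ℝ) < (⌊Real.exp r⌋₊ : ℝ) := (Real.exp_pos _).trans_le hge
  refine ⟨h0, ?_, ?_, ?_⟩
  · rw [Real.log_le_iff_le_exp h0]; exact hle
  · rw [Real.le_log_iff_exp_le h0]; exact hge
  · have : 0 < ⌊Real.exp r⌋₊ := by exact_mod_cast h0
    omega

/-- the tail exponent -/
theorem par_z {u v L Q ε t U lw lM z : ℝ} (hε0 : 0 < ε) (hε1 : ε ≤ 1) (huexp : Real.exp v = u)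
    (hL0 : 0 < L) (hQ0 : 0 < Q) (hQε : 160 ≤ ε * Q) (hU : U = (1 + ε) * L / Q)
    (hU1 : 1 ≤ U) (hlogU : (1 - ε / 4) * Q ≤ Real.log U) (htu : t ≤ u)
    (hlw1 : 1 ≤ lw) (hlw : lw ≤ (t - 1) / U) (hlM1 : t - 1 ≤ lM) (hlM2 : lM ≤ t)
    (hz : z = lM / lw) :
    1 ≤ Real.log z ∧ 10 ≤ ε / 8 * Real.log z ∧ Real.log z ≤ v ∧
      Real.exp (-((1 - ε / 8) * (z * Real.log z))) ≤ Real.exp (-((1 + ε / 4) * L)) := by
  have hU0 : 0 < U := by linarith
  have hlw0 : 0 < lw := by linarith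
  have hu0 : 0 < u := by rw [← huexp]; exact Real.exp_pos _
  have hzU : U ≤ z := by
    rw [hz, le_div_iff₀ hlw0]
    calc U * lw ≤ U * ((t - 1) / U) := mul_le_mul_of_nonneg_left hlw hU0.le
      _ = t - 1 := by field_simp
      _ ≤ lM := hlM1
  have hz0 : 0 < z := by linarith
  have hlogzU : Real.log U ≤ Real.log z := Real.log_le_log hU0 hzU
  have h34 : 3 / 4 * Q ≤ Real.log z := by
    have h1 : 3 / 4 * Q ≤ (1 - ε / 4) * Q := by
      apply mul_le_mul_of_nonneg_right _ hQ0.le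
      linarith
    linarith
  have hQ160 : 160 ≤ Q := by nlinarith
  refine ⟨by linarith, ?_, ?_, ?_⟩
  · have h1 : ε / 8 * (3 / 4 * Q) ≤ ε / 8 * Real.log z :=
      mul_le_mul_of_nonneg_left h34 (by linarith)
    have h2 : ε / 8 * (3 / 4 * Q) = 3 / 32 * (ε * Q) := by ring
    linarith
  · have h1 : z ≤ u := by
      rw [hz, div_le_iff₀ hlw0]
      calc lM ≤ u * 1 := by linarith
        _ ≤ u * lw := mul_le_mul_of_nonneg_left hlw1 hu0.le
    rw [← Real.log_exp v, huexp]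
    exact Real.log_le_log hz0 h1
  · apply Real.exp_le_exp.mpr
    apply neg_le_neg
    have h1 : U * ((1 - ε / 4) * Q) ≤ z * Real.log z :=
      mul_le_mul hzU (hlogU.trans hlogzU) (by
        apply mul_nonneg _ hQ0.le
        linarith) hz0.le
    have h2 : U * ((1 - ε / 4) * Q) = (1 + ε) * (1 - ε / 4) * L := by
      rw [hU]; field_simp
    rw [h2] at h1
    have h3 : (1 + ε / 4) ≤ (1 - ε / 8) * ((1 + ε) * (1 - ε / 4)) := by
      have e1 : (1 - ε / 8) * ((1 + ε) * (1 - ε / 4)) - (1 + ε / 4) =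
          3 / 8 * (ε * (1 - ε)) + 1 / 32 * ε ^ 2 + 1 / 32 * ε ^ 3 := by ring
      have e2 : 0 ≤ ε * (1 - ε) := mul_nonneg hε0.le (by linarith)
      have e3 : 0 ≤ ε ^ 2 := by positivity
      have e4 : 0 ≤ ε ^ 3 := by positivity
      linarith
    calc (1 + ε / 4) * L ≤ (1 - ε / 8) * ((1 + ε) * (1 - ε / 4)) * L :=
          mul_le_mul_of_nonneg_right h3 hL0.le
      _ = (1 - ε / 8) * ((1 + ε) * (1 - ε / 4) * L) := by ring
      _ ≤ (1 - ε / 8) * (z * Real.log z) := mul_le_mul_of_nonneg_left h1 (by linarith)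

theorem fin_block {u v L Q η ε c κ e C Cg A1 A2 t U pp S1 S2 y : ℝ} (hη0 : 0 < η) (hη1 : η ≤ 1)
    (hε0 : 0 < ε) (hc0 : 0 ≤ c) (hc : c * (1 + ε) < η) (hκ : κ = η / (1 + ε) - c)
    (huexp : Real.exp v = u) (hvexp : Real.exp L = v) (hLexp : Real.exp Q = L) (hQ160 : 160 ≤ Q)
    (ht : t = η * u / v) (hU : U = (1 + ε) * L / Q) (htu : t ≤ u)
    (hy0 : 0 < y) (hC : 0 < C) (hCg : 0 < Cg) (he0 : 0 < e) (hA1lo : 1 - e ≤ A1)
    (hA1up : A1 ≤ 1) (hA2lo : t / U - 2 - Cg - 2 * t * e ≤ A2)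
    (hfin : 13 * e + (6 * C + 2 + Cg) / Real.exp v + 2 / v ^ 2 ≤ κ * (Q / (v * L)))
    (hpiy : pp ≤ y / u + C * y / u ^ 2)
    (hsum1 : y * (1 / u - 4 * C / u ^ 2) * A1 + y / u ^ 2 * A2 ≤ S1)
    (hsum2 : S2 ≥ S1 - 10 * (y / u) * e) :
    (1 + c * (Q / (v * L))) * pp ≤ (1 - 1 / v ^ 2) * S2 := by
  have hQ0 : 0 < Q := by linarith
  have hQL : Q + 1 ≤ L := by
    have := Real.add_one_le_exp Q
    linarith
  have hLv : L + 1 ≤ v := by
    have := Real.add_one_le_exp L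
    linarith
  have hL0 : 0 < L := by linarith
  have hv0 : 0 < v := by linarith
  have hu0 : 0 < u := by rw [← huexp]; exact Real.exp_pos _
  obtain ⟨g1, hg1⟩ : ∃ g1 : ℝ, g1 = Q / (v * L) := ⟨_, rfl⟩
  have hg10 : 0 ≤ g1 := by rw [hg1]; positivity
  have hg11 : g1 ≤ 1 := by
    rw [hg1, div_le_one (by positivity)]
    calc Q ≤ 1 * L := by linarith
      _ ≤ v * L := by
          apply mul_le_mul_of_nonneg_right (by linarith) hL0.le
  have h1ε : 0 < 1 + ε := by linarith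
  obtain ⟨a, ha⟩ : ∃ a : ℝ, a = η / (1 + ε) := ⟨_, rfl⟩
  have ha1 : a ≤ 1 := by rw [ha, div_le_one h1ε]; linarith
  have ha0 : 0 ≤ a := by rw [ha]; positivity
  have hca : c ≤ a := by
    rw [ha, le_div_iff₀ h1ε]
    exact hc.le
  have h5 : t / U / u = a * g1 := by
    rw [ht, hU, hg1, ha]
    field_simp
  have h6 : t / u ≤ 1 := by
    rw [div_le_one hu0]; exact htu
  have hfin' : c * g1 + 13 * e + (6 * C + 2 + Cg) / u + 2 / v ^ 2 ≤ a * g1 := by
    rw [huexp, ← hg1, hκ, ← ha] at hfin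
    linarith
  rw [← hg1]
  exact arith2 hu0 (by linarith) hy0 hC he0 hA1lo hA1up hA2lo h5 h6
    (mul_le_one₀ ha1 hg10 hg11) hg10 hg11 hc0 (hca.trans ha1) hCg hfin' hpiy hsum1 hsum2

end RHC
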