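import Pool.Agent.H58.RHC.Rk
import Pool.Agent.H58.RHC.Asy
import Pool.Agent.H7.RhoV.SurvV

/-!
# The expected number of survivors, with smooth parts up to `exp (log y / (A log log y))`
-/

set_option autoImplicit false

open Finset Real
open Pool.Agent.H85.Rho hiding PP MM TT

namespace RHC

open RhoU RhoV

/-- `⌊T⌋` -/
noncomputable def MA (A : ℝ) (y : ℕ) : ℕ := ⌊TA A y⌋₊

/-- `⌊y / T⌋` -/
noncomputable def PA (A : ℝ) (y : ℕ) : ℕ := ⌊(y : ℝ) / TA A y⌋₊

/-- the smoothness parameter -/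
noncomputable def wA (A : ℝ) (y : ℕ) : ℕ :=
  ⌊Real.exp (Real.log y / (A * Real.log (Real.log y)) /
    (2 * Real.log (Real.log (Real.log y))))⌋₊

/-- the eventual inequalities in `v = log log y` -/
theorem ev_fin (A D E : ℝ) (hA : 0 < A) :
    ∀ᶠ v : ℝ in Filter.atTop, D / v ^ 2 + E / Real.exp v ≤ 1 / (8 * A * (v * Real.log v)) := by
  have h1 : ∀ᶠ v : ℝ in Filter.atTop, 16 * A * |D| * Real.log v ≤ v := by
    have h := (Real.isLittleO_log_id_atTop).bound (c := 1 / (16 * A * |D| + 1)) (by positivity)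
    filter_upwards [h, Filter.eventually_ge_atTop 1] with v h2 h3
    simp only [id, Real.norm_eq_abs] at h2
    rw [abs_of_nonneg (Real.log_nonneg h3), abs_of_nonneg (show 0 ≤ v by linarith)] at h2
    have h4 : (16 * A * |D| + 1) * Real.log v ≤ v := by
      calc (16 * A * |D| + 1) * Real.log v ≤ (16 * A * |D| + 1) * (1 / (16 * A * |D| + 1) * v) :=
            mul_le_mul_of_nonneg_left h2 (by positivity)
        _ = v := by field_simp
    have h5 := Real.log_nonneg h3
    nlinarith
  have h2 : ∀ᶠ v : ℝ in Filter.atTop, 16 * A * |E| * v ^ 2 ≤ Real.exp v := by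
    have h := (isLittleO_pow_exp_atTop (n := 2)).bound (c := 1 / (16 * A * |E| + 1)) (by positivity)
    filter_upwards [h, Filter.eventually_ge_atTop 1] with v h2 h3
    simp only [Real.norm_eq_abs] at h2
    rw [abs_of_nonneg (by positivity), abs_of_nonneg (Real.exp_pos v).le] at h2
    have h4 : (16 * A * |E| + 1) * v ^ 2 ≤ Real.exp v := by
      calc (16 * A * |E| + 1) * v ^ 2 ≤
            (16 * A * |E| + 1) * (1 / (16 * A * |E| + 1) * Real.exp v) :=
            mul_le_mul_of_nonneg_left h2 (by positivity)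
        _ = Real.exp v := by field_simp
    nlinarith [sq_nonneg v]
  filter_upwards [h1, h2, Filter.eventually_ge_atTop 3] with v h3 h4 h5
  have hv0 : 0 < v := by linarith
  have hL1 : 1 ≤ Real.log v := by
    rw [Real.le_log_iff_exp_le hv0]
    have := Real.exp_one_lt_d9
    linarith
  have hL2 : Real.log v ≤ v := by
    have := Real.log_le_sub_one_of_pos hv0
    linarith
  set L := Real.log v
  have e1 : D / v ^ 2 ≤ 1 / (16 * A * (v * L)) := by
    have h6 : D / v ^ 2 ≤ |D| / v ^ 2 := div_le_div_of_nonneg_right (le_abs_self D) (by positivity)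
    refine h6.trans ?_
    rw [div_le_div_iff₀ (by positivity) (by positivity)]
    calc |D| * (16 * A * (v * L)) = (16 * A * |D| * L) * v := by ring
      _ ≤ v * v := mul_le_mul_of_nonneg_right h3 hv0.le
      _ = 1 * v ^ 2 := by ring
  have e2 : E / Real.exp v ≤ 1 / (16 * A * (v * L)) := by
    have h6 : E / Real.exp v ≤ |E| / Real.exp v :=
      div_le_div_of_nonneg_right (le_abs_self E) (Real.exp_pos v).le
    refine h6.trans ?_
    rw [div_le_div_iff₀ (Real.exp_pos v) (by positivity)]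
    calc |E| * (16 * A * (v * L)) ≤ |E| * (16 * A * (v * v)) := by gcongr
      _ = 16 * A * |E| * v ^ 2 := by ring
      _ ≤ 1 * Real.exp v := by linarith
  have e3 : 1 / (8 * A * (v * L)) = 1 / (16 * A * (v * L)) + 1 / (16 * A * (v * L)) := by
    field_simp
    norm_num
  linarith

theorem arith {u v L A y C Cg e A1 A2 r t pp S1 S2 : ℝ} (hu0 : 0 < u) (hv0 : 0 < v) (hL0 : 0 < L)
    (hv1 : 1 ≤ v) (hA : 1 ≤ A) (hy0 : 0 < y) (hC : 0 < C) (he0 : 0 < e) (hA1lo : 1 - e ≤ A1)
    (hA1up : A1 ≤ 1) (hA2lo : r - 1 - Cg - 2 * t * e ≤ A2) (h5 : r / u = 1 / (2 * A * (v * L)))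
    (h6 : t / u ≤ 1) (ht0 : 0 < t)
    (hfin' : 13 * e + (6 * C + 2 + Cg) / u ≤ 1 / (8 * A * (v * L)))
    (hpiy : pp ≤ y / u + C * y / u ^ 2)
    (hsum1 : y * (1 / u - 4 * C / u ^ 2) * A1 + y / u ^ 2 * A2 ≤ S1)
    (hsum2 : S2 ≥ S1 - 10 * (y / u) * e) (hL1 : 1 ≤ L) :
    (1 + 1 / (8 * A) / (v * L)) * pp + y / u ^ 2 ≤ S2 := by
  have hA0 : 0 < A := by linarith
  obtain ⟨R, hR⟩ : ∃ R : ℝ, R = y / u := ⟨_, rfl⟩
  have hR0 : 0 < R := by rw [hR]; positivity
  have hyR : y = R * u := by rw [hR]; field_simp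
  subst hyR
  obtain ⟨g, hg⟩ : ∃ g : ℝ, g = 1 / (8 * A * (v * L)) := ⟨_, rfl⟩
  have hvL : 1 ≤ v * L := by nlinarith
  have hAvL : 1 ≤ A * (v * L) := by nlinarith
  have hg0 : 0 < g := by rw [hg]; positivity
  have hg1 : g ≤ 1 := by
    rw [hg, div_le_one (by positivity)]
    linarith
  have e4 : 1 / (2 * A * (v * L)) = 4 * g := by
    rw [hg]; field_simp; norm_num
  have e5 : 1 / (8 * A) / (v * L) = g := by
    rw [hg, div_div]
  rw [e5]
  rw [← hg] at hfin'
  rw [e4] at h5
  have ex : R * u / u = R := by field_simp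
  rw [ex] at hsum2 hpiy
  have e6 : R * u / u ^ 2 = R * (1 / u) := by field_simp
  have e7 : C * (R * u) / u ^ 2 = R * (C / u) := by field_simp
  rw [e6] at hsum1
  rw [e7] at hpiy
  have h1 : R * u * (1 / u - 4 * C / u ^ 2) * A1 ≥ R * (1 - e) - R * (4 * (C / u)) := by
    have h2 : R * u * (1 / u - 4 * C / u ^ 2) * A1 = R * A1 - R * (4 * (C / u)) * A1 := by
      field_simp
    have h3 : R * (1 - e) ≤ R * A1 := mul_le_mul_of_nonneg_left hA1lo hR0.le
    have h5 : R * (4 * (C / u)) * A1 ≤ R * (4 * (C / u)) :=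
      mul_le_of_le_one_right (by positivity) hA1up
    rw [h2]
    linarith
  have h2 : R * (1 / u) * A2 ≥ R * (4 * g - (1 + Cg) / u - 2 * e) := by
    have h3 : R * (1 / u) * A2 ≥ R * (1 / u) * (r - 1 - Cg - 2 * t * e) :=
      mul_le_mul_of_nonneg_left hA2lo (by positivity)
    have h4 : R * (1 / u) * (r - 1 - Cg - 2 * t * e) =
        R * (r / u - (1 + Cg) / u - 2 * (t / u) * e) := by
      field_simp
      ring
    have h7 : 2 * (t / u) * e ≤ 2 * e := by nlinarith
    have h8 : R * (r / u - (1 + Cg) / u - 2 * (t / u) * e) ≥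
        R * (4 * g - (1 + Cg) / u - 2 * e) := by
      apply mul_le_mul_of_nonneg_left _ hR0.le
      rw [h5]
      linarith
    linarith
  have h9 : (1 + g) * pp ≤ R * (1 + g + 2 * (C / u)) := by
    have h10 : pp ≤ R * (1 + C / u) := by linarith
    calc (1 + g) * pp ≤ (1 + g) * (R * (1 + C / u)) :=
          mul_le_mul_of_nonneg_left h10 (by linarith)
      _ = R * ((1 + g) * (1 + C / u)) := by ring
      _ ≤ R * (1 + g + 2 * (C / u)) := by
          apply mul_le_mul_of_nonneg_left _ hR0.le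
          have : 0 ≤ C / u := by positivity
          nlinarith
  rw [e6]
  have h12 : 1 + g + 2 * (C / u) + 1 / u ≤
      (1 - e) - 4 * (C / u) + (4 * g - (1 + Cg) / u - 2 * e) - 10 * e := by
    have h13 : (6 * C + 2 + Cg) / u = 6 * (C / u) + 1 / u + (1 + Cg) / u := by
      field_simp; ring
    linarith
  have h14 := mul_le_mul_of_nonneg_left h12 hR0.le
  linarith

theorem survivors0 {A : ℝ} (hA : 1 ≤ A) :
    ∀ᶠ y : ℕ in Filter.atTop, wA A y ≤ PA A y ∧
      (1 + 1 / (8 * A) / (Real.log (Real.log y) * Real.log (Real.log (Real.log y)))) *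
          (Nat.primeCounting y : ℝ) + y / (Real.log y) ^ 2 ≤
      ∑ m ∈ Sm (wA A y) (MA A y), fw (wA A y) m *
        ((Nat.primeCounting (y / m) : ℝ) - Nat.primeCounting (PA A y)) := by
  obtain ⟨C, x0, hC, hpi⟩ := PNTE.pi_pnt
  obtain ⟨Cg, hCg, hgain⟩ := gain_v
  have hA0 : 0 < A := by linarith
  have hll : Filter.Tendsto (fun y : ℕ => Real.log (Real.log (y : ℝ))) Filter.atTop Filter.atTop :=
    Real.tendsto_log_atTop.comp tendsto_logN
  have hlll : Filter.Tendsto (fun y : ℕ => Real.log (Real.log (Real.log (y : ℝ)))) Filter.atTop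
      Filter.atTop := Real.tendsto_log_atTop.comp hll
  -- `t / (2 L) ≥ 11`
  have hev1 : ∀ᶠ y : ℕ in Filter.atTop, 22 * Real.log (Real.log (Real.log (y : ℝ))) ≤
      Real.log y / (A * Real.log (Real.log y)) := by
    have h := (isLittleO_pow_log_id_atTop (n := 2)).bound (c := 1 / (22 * A)) (by positivity)
    filter_upwards [tendsto_logN.eventually h, tendsto_logN.eventually_ge_atTop 1,
      hll.eventually_ge_atTop 1] with y h2 h3 h4
    simp only [id, Real.norm_eq_abs] at h2
    rw [abs_of_nonneg (by positivity), abs_of_nonneg (show 0 ≤ Real.log (y : ℝ) by linarith)] at h2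
    set u := Real.log (y : ℝ)
    set v := Real.log u
    rw [le_div_iff₀ (by positivity)]
    have h5 : Real.log v ≤ v := by
      have := Real.log_le_sub_one_of_pos (show 0 < v by linarith)
      linarith
    calc 22 * Real.log v * (A * v) ≤ 22 * v * (A * v) := by gcongr
      _ = 22 * A * v ^ 2 := by ring
      _ ≤ 22 * A * (1 / (22 * A) * u) := by gcongr
      _ = u := by field_simp
  filter_upwards [hev1, hll.eventually (ev_fin A (13 * Real.exp 31) (6 * C + 2 + Cg) hA0),
    tendsto_logN.eventually_ge_atTop (2 * Real.log (max x0 2)),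
    tendsto_logN.eventually_ge_atTop 100, Filter.eventually_ge_atTop 3,
    hll.eventually_ge_atTop 4, hlll.eventually_ge_atTop 1] with y hev hfin hux hu100 hy3 hv4 hL1
  set u : ℝ := Real.log (y : ℝ) with hu
  set v : ℝ := Real.log u with hv'
  set L : ℝ := Real.log v with hL'
  have hv0 : 0 < v := by linarith
  have hu0 : 0 < u := by linarith
  have hL0 : 0 < L := by linarith
  have hy0 : (0 : ℝ) < y := by
    have : 0 < y := by omega
    exact_mod_cast this
  have hyexp : Real.exp u = y := Real.exp_log hy0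
  have huexp : Real.exp v = u := Real.exp_log hu0
  have hvexp : Real.exp L = v := Real.exp_log hv0
  set t : ℝ := u / (A * v) with ht
  have ht0 : 0 < t := by positivity
  have ht22 : 22 * L ≤ t := hev
  have htu2 : t ≤ u / 2 := by
    rw [ht]
    apply div_le_div_of_nonneg_left hu0.le (by norm_num)
    nlinarith
  set T : ℝ := TA A y with hT
  have hTdef : T = Real.exp t := rfl
  have hT0 : 0 < T := Real.exp_pos _
  have hT2 : 2 ≤ T := by
    rw [hTdef]
    have := Real.add_one_le_exp t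
    linarith
  have hyT : Real.exp (u / 2) ≤ y / T := by
    rw [hTdef, ← hyexp, ← Real.exp_sub]
    exact Real.exp_le_exp.mpr (by linarith)
  have hexpx0 : max x0 2 ≤ Real.exp (u / 2) := by
    have h2 : 0 < max x0 2 := lt_of_lt_of_le (by norm_num) (le_max_right _ _)
    rw [← Real.log_le_iff_le_exp h2]
    linarith
  have hx0e : x0 ≤ Real.exp (u / 2) := (le_max_left _ _).trans hexpx0
  have h2e : 2 ≤ Real.exp (u / 2) := (le_max_right _ _).trans hexpx0
  have hyx0 : x0 ≤ y := by
    rw [← hyexp]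
    exact hx0e.trans (Real.exp_le_exp.mpr (by linarith))
  -- `w`
  set w : ℕ := wA A y with hw
  set r : ℝ := t / (2 * L) with hr
  have hr11 : 11 ≤ r := by
    rw [hr, le_div_iff₀ (by positivity)]
    linarith
  have hrt : r ≤ t := by
    rw [hr]
    apply div_le_self ht0.le
    linarith
  have hwdef : w = ⌊Real.exp r⌋₊ := rfl
  have hwle : (w : ℝ) ≤ Real.exp r := by rw [hwdef]; exact Nat.floor_le (Real.exp_pos r).le
  have hwge : Real.exp (r - 1) ≤ w := by
    have h1 : Real.exp r < w + 1 := by rw [hwdef]; exact Nat.lt_floor_add_one _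
    have h2 : 2 ≤ Real.exp 1 := by have := Real.exp_one_gt_d9; linarith
    have h3 : Real.exp (r - 1) * Real.exp 1 = Real.exp r := by rw [← Real.exp_add]; ring_nf
    have h4 : 1 ≤ Real.exp (r - 1) := Real.one_le_exp (by linarith)
    nlinarith
  have hw10 : Real.exp 10 ≤ w := (Real.exp_le_exp.mpr (by linarith)).trans hwge
  have hw0 : (0 : ℝ) < w := (Real.exp_pos _).trans_le hw10
  have hlogw_le : Real.log w ≤ r := by
    rw [Real.log_le_iff_le_exp hw0]; exact hwle
  have hlogw_ge : r - 1 ≤ Real.log w := by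
    rw [Real.le_log_iff_exp_le hw0]; exact hwge
  have hlogw0 : 0 < Real.log w := by linarith
  -- `M`
  set M : ℕ := MA A y with hM
  have hMle : (M : ℝ) ≤ T := Nat.floor_le hT0.le
  have hMgt : T < M + 1 := Nat.lt_floor_add_one _
  have hM1' : (1 : ℝ) < M + 1 := by linarith
  have hM1 : 1 ≤ M := by
    have : 1 < M + 1 := by exact_mod_cast hM1'
    omega
  have hM1R : (1 : ℝ) ≤ M := by exact_mod_cast hM1
  have hM0 : (0 : ℝ) < M := by linarith
  have hMT2 : T / 2 ≤ M := by linarith
  have hlogM : Real.log M ≤ t := by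
    rw [Real.log_le_iff_le_exp hM0]; exact hMle
  have hlogM_ge : t - 1 ≤ Real.log M := by
    rw [Real.le_log_iff_exp_le hM0]
    have h2 : 2 ≤ Real.exp 1 := by have := Real.exp_one_gt_d9; linarith
    have h3 : Real.exp (t - 1) * Real.exp 1 = T := by rw [← Real.exp_add, hTdef]; ring_nf
    have h4 : 0 < Real.exp (t - 1) := Real.exp_pos _
    nlinarith
  -- the tail
  set B : ℝ := Real.exp (30 - Real.log M / Real.log w) with hB
  have hB0 : 0 < B := Real.exp_pos _
  obtain ⟨e, he⟩ : ∃ e : ℝ, e = Real.exp 31 / v ^ 2 := ⟨_, rfl⟩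
  have he0 : 0 < e := by rw [he]; positivity
  have hBle : B ≤ e := by
    rw [he]
    have h1 : 2 * L - 1 ≤ Real.log M / Real.log w := by
      rw [le_div_iff₀ hlogw0]
      have h2 : (2 * L - 1) * Real.log w ≤ (2 * L - 1) * r :=
        mul_le_mul_of_nonneg_left hlogw_le (by linarith)
      have h3 : (2 * L - 1) * r = t - r := by
        rw [hr]; field_simp
      linarith
    have h2 : Real.exp 31 / v ^ 2 = Real.exp (31 - 2 * L) := by
      rw [Real.exp_sub, ← hvexp, ← Real.exp_nat_mul]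
      push_cast
      rfl
    rw [h2, hB]
    exact Real.exp_le_exp.mpr (by linarith)
  obtain ⟨ht1, ht2, ht3⟩ := tails0 hw10 hM1
  rw [← hB] at ht1 ht2 ht3
  -- mass
  set A1 : ℝ := ∑ m ∈ Sm w M, fw w m / m with hA1
  have hA1up : A1 ≤ 1 := mass_upper w M
  have hA10 : 0 ≤ A1 := sum_nonneg fun m _ => div_nonneg (fw_nonneg w m) (Nat.cast_nonneg _)
  have hA1lo : 1 - e ≤ A1 := by
    have := mass_v ht1
    linarith
  -- gain
  set A2 : ℝ := ∑ m ∈ Sm w M, fw w m / m * Real.log m with hA2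
  have hw1 : 1 ≤ w := by
    have : (0 : ℝ) < w := hw0
    have : 0 < w := by exact_mod_cast this
    omega
  have hA2lo : r - 1 - Cg - 2 * t * e ≤ A2 := by
    have h1 := hgain w M _ hw1 ht2
    have h2 : (Real.log M + Real.log w) * B ≤ 2 * t * e := by
      apply mul_le_mul (by linarith) hBle hB0.le (by positivity)
    linarith
  -- the primes up to `P`
  set P : ℕ := PA A y with hP
  have hPub : (Nat.primeCounting P : ℝ) * ∑ m ∈ Sm w M, fw w m ≤
      10 * (y / u) * e := by
    have hx2 : 2 ≤ (y : ℝ) / T := h2e.trans hyT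
    have h1 := pi_le_five hx2
    have h2 : u / 2 ≤ Real.log (y / T) := by
      rw [Real.le_log_iff_exp_le (by positivity)]; exact hyT
    have h3 : (Nat.primeCounting P : ℝ) ≤ 10 * (y / T) / u := by
      refine h1.trans ?_
      calc 5 * ((y : ℝ) / T) / Real.log (y / T) ≤ 5 * ((y : ℝ) / T) / (u / 2) := by gcongr
        _ = _ := by field_simp; ring
    have h4 : ∑ m ∈ Sm w M, fw w m ≤ T * e :=
      ht3.trans (mul_le_mul hMle hBle hB0.le hT0.le)
    have h5 : ((y : ℝ) / T) * T = y := div_mul_cancel₀ _ hT0.ne'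
    calc (Nat.primeCounting P : ℝ) * ∑ m ∈ Sm w M, fw w m ≤
          (10 * (y / T) / u) * (T * e) :=
          mul_le_mul h3 h4 (sum_nonneg fun m _ => fw_nonneg w m) (by positivity)
      _ = 10 * (((y / T) * T) / u) * e := by ring
      _ = _ := by rw [h5]
  -- the primes up to `y / m`
  have hterm : ∀ m ∈ Sm w M, fw w m / m * (y * (1 / u + Real.log m / u ^ 2 - 4 * C / u ^ 2)) ≤
      fw w m * (Nat.primeCounting (y / m) : ℝ) := by
    intro m hm
    rw [mem_Sm] at hm
    have hm1 : (1 : ℝ) ≤ m := by exact_mod_cast hm.1.1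
    have hm0 : (0 : ℝ) < m := by linarith
    have hmT : (m : ℝ) ≤ T := le_trans (by exact_mod_cast hm.1.2) hMle
    have hym : Real.exp (u / 2) ≤ (y : ℝ) / m := hyT.trans (by gcongr)
    have h1 := hpi ((y : ℝ) / m) (hx0e.trans hym)
    rw [Nat.floor_div_eq_div] at h1
    have h2 := (abs_le.mp h1).1
    have hl : Real.log ((y : ℝ) / m) = u - Real.log m := by
      rw [Real.log_div hy0.ne' hm0.ne']
    have hl2 : u / 2 ≤ Real.log ((y : ℝ) / m) := by
      rw [Real.le_log_iff_exp_le (by positivity)]; exact hym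
    have hl0 : 0 < Real.log ((y : ℝ) / m) := by linarith
    have hlm : 0 ≤ Real.log m := Real.log_nonneg hm1
    have h3 : ((y : ℝ) / m) * (1 / u + Real.log m / u ^ 2) ≤ ((y : ℝ) / m) / Real.log ((y : ℝ) / m) := by
      rw [le_div_iff₀ hl0, mul_assoc]
      apply mul_le_of_le_one_right (by positivity)
      rw [hl]
      have e : (1 / u + Real.log m / u ^ 2) * (u - Real.log m) = 1 - (Real.log m) ^ 2 / u ^ 2 := by
        field_simp
        ring
      rw [e]
      have : 0 ≤ (Real.log m) ^ 2 / u ^ 2 := by positivity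
      linarith
    have h4 : C * ((y : ℝ) / m) / (Real.log ((y : ℝ) / m)) ^ 2 ≤ ((y : ℝ) / m) * (4 * C / u ^ 2) := by
      have h5 : (u / 2) ^ 2 ≤ (Real.log ((y : ℝ) / m)) ^ 2 := pow_le_pow_left₀ (by positivity) hl2 2
      calc C * ((y : ℝ) / m) / (Real.log ((y : ℝ) / m)) ^ 2 ≤ C * ((y : ℝ) / m) / (u / 2) ^ 2 := by
            gcongr
        _ = _ := by field_simp; ring
    have h6 : ((y : ℝ) / m) * (1 / u + Real.log m / u ^ 2 - 4 * C / u ^ 2) ≤
        (Nat.primeCounting (y / m) : ℝ) := by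
      have e : ((y : ℝ) / m) * (1 / u + Real.log m / u ^ 2 - 4 * C / u ^ 2) =
        ((y : ℝ) / m) * (1 / u + Real.log m / u ^ 2) - ((y : ℝ) / m) * (4 * C / u ^ 2) := by ring
      rw [e]
      linarith
    calc fw w m / m * (y * (1 / u + Real.log m / u ^ 2 - 4 * C / u ^ 2)) =
          fw w m * (((y : ℝ) / m) * (1 / u + Real.log m / u ^ 2 - 4 * C / u ^ 2)) := by
          field_simp
      _ ≤ _ := mul_le_mul_of_nonneg_left h6 (fw_nonneg w m)
  have hsum1 : y * (1 / u - 4 * C / u ^ 2) * A1 + y / u ^ 2 * A2 ≤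
      ∑ m ∈ Sm w M, fw w m * (Nat.primeCounting (y / m) : ℝ) := by
    refine le_trans (le_of_eq ?_) (sum_le_sum hterm)
    rw [hA1, hA2, mul_sum, mul_sum, ← sum_add_distrib]
    apply sum_congr rfl
    intro m _
    ring
  have hsum2 : ∑ m ∈ Sm w M, fw w m * ((Nat.primeCounting (y / m) : ℝ) - Nat.primeCounting P) ≥
      ∑ m ∈ Sm w M, fw w m * (Nat.primeCounting (y / m) : ℝ) -
        10 * (y / u) * e := by
    have ee : ∑ m ∈ Sm w M, fw w m * ((Nat.primeCounting (y / m) : ℝ) - Nat.primeCounting P) =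
        ∑ m ∈ Sm w M, fw w m * (Nat.primeCounting (y / m) : ℝ) -
          (Nat.primeCounting P : ℝ) * ∑ m ∈ Sm w M, fw w m := by
      rw [mul_sum, ← sum_sub_distrib]
      apply sum_congr rfl
      intro m _
      ring
    rw [ee]
    linarith
  have hpiy : (Nat.primeCounting y : ℝ) ≤ y / u + C * y / u ^ 2 := by
    have h1 := hpi (y : ℝ) hyx0
    rw [Nat.floor_natCast, ← hu] at h1
    have h2 := (abs_le.mp h1).2
    linarith
  refine ⟨?_, ?_⟩
  · rw [hwdef]
    apply Nat.floor_le_floor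
    calc Real.exp r ≤ Real.exp (u / 2) := Real.exp_le_exp.mpr (by linarith)
      _ ≤ y / T := hyT
  · have hfin' : 13 * e + (6 * C + 2 + Cg) / u ≤ 1 / (8 * A * (v * L)) := by
      have h3 : 13 * Real.exp 31 / v ^ 2 = 13 * e := by rw [he]; ring
      rw [h3, huexp] at hfin
      exact hfin
    have h5 : r / u = 1 / (2 * A * (v * L)) := by
      rw [hr, ht]
      have h7 : A * v ≠ 0 := by positivity
      have h8 : L ≠ 0 := hL0.ne'
      have h9 : v ≠ 0 := hv0.ne'
      have h10 : A ≠ 0 := hA0.ne'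
      have h11 : u ≠ 0 := hu0.ne'
      rw [div_div, div_div, div_eq_div_iff (by positivity) (by positivity)]
      ring
    have h6 : t / u ≤ 1 := by
      rw [div_le_one hu0]; linarith
    exact arith hu0 hv0 hL0 (by linarith) hA hy0 hC he0 hA1lo hA1up hA2lo h5 h6 ht0 hfin' hpiy hsum1 hsum2
      (by linarith)

end RHC
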