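import Pool.Agent.H58.RHC.Pr
import Pool.Agent.H62.RHC.Rk2

/-!
# The expected number of survivors, sharp form
-/

set_option autoImplicit false

open Finset Real
open Pool.Agent.H85.Rho hiding PP MM TT

namespace RHC

open RhoU RhoV

theorem sum_primes {C x0 : ℝ} (hC : 0 < C) (hpi : ∀ x : ℝ, x0 ≤ x →
    |(Nat.primeCounting ⌊x⌋₊ : ℝ) - x / Real.log x| ≤ C * x / (Real.log x) ^ 2)
    {y w M : ℕ} {T : ℝ} (hy0 : (0 : ℝ) < y) (hu0 : 0 < Real.log y)
    (hx0e : x0 ≤ Real.exp (Real.log y / 2)) (hT0 : 0 < T) (hMle : (M : ℝ) ≤ T)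
    (hyT : Real.exp (Real.log y / 2) ≤ (y : ℝ) / T) :
    y * (1 / Real.log y - 4 * C / (Real.log y) ^ 2) * (∑ m ∈ Sm w M, fw w m / m) +
      y / (Real.log y) ^ 2 * (∑ m ∈ Sm w M, fw w m / m * Real.log m) ≤
      ∑ m ∈ Sm w M, fw w m * (Nat.primeCounting (y / m) : ℝ) := by
  have hterm : ∀ m ∈ Sm w M, fw w m / m *
      (y * (1 / Real.log y + Real.log m / (Real.log y) ^ 2 - 4 * C / (Real.log y) ^ 2)) ≤
      fw w m * (Nat.primeCounting (y / m) : ℝ) := by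
    intro m hm
    rw [mem_Sm] at hm
    have hm1 : (1 : ℝ) ≤ m := by exact_mod_cast hm.1.1
    have hmT : (m : ℝ) ≤ T := le_trans (by exact_mod_cast hm.1.2) hMle
    exact term_bd hC hpi hy0 hu0 hx0e
      (hyT.trans (div_le_div_of_nonneg_left hy0.le (by linarith) hmT)) hm1 (fw_nonneg w m)
  refine le_trans (le_of_eq ?_) (sum_le_sum hterm)
  rw [mul_sum, mul_sum, ← sum_add_distrib]
  apply sum_congr rfl
  intro m _
  ring

theorem sum_P {y w M P : ℕ} {T e B : ℝ} (hy0 : (0 : ℝ) < y) (hu0 : 0 < Real.log y)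
    (h2e : 2 ≤ Real.exp (Real.log y / 2)) (hT0 : 0 < T) (hMle : (M : ℝ) ≤ T)
    (hyT : Real.exp (Real.log y / 2) ≤ (y : ℝ) / T) (hP : P = ⌊(y : ℝ) / T⌋₊)
    (hB0 : 0 < B) (hBle : B ≤ e) (ht3 : ∑ m ∈ Sm w M, fw w m ≤ M * B) :
    (Nat.primeCounting P : ℝ) * ∑ m ∈ Sm w M, fw w m ≤ 10 * (y / Real.log y) * e := by
  have hx2 : 2 ≤ (y : ℝ) / T := h2e.trans hyT
  have h1 := pi_le_five hx2
  rw [← hP] at h1
  have h2 : Real.log y / 2 ≤ Real.log (y / T) := by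
    rw [Real.le_log_iff_exp_le (by positivity)]; exact hyT
  have h3 : (Nat.primeCounting P : ℝ) ≤ 10 * (y / T) / Real.log y := by
    refine h1.trans ?_
    calc 5 * ((y : ℝ) / T) / Real.log (y / T) ≤ 5 * ((y : ℝ) / T) / (Real.log y / 2) := by gcongr
      _ = _ := by field_simp; ring
  have h4 : ∑ m ∈ Sm w M, fw w m ≤ T * e :=
    ht3.trans (mul_le_mul hMle hBle hB0.le hT0.le)
  have h5 : ((y : ℝ) / T) * T = y := div_mul_cancel₀ _ hT0.ne'
  calc (Nat.primeCounting P : ℝ) * ∑ m ∈ Sm w M, fw w m ≤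
        (10 * (y / T) / Real.log y) * (T * e) :=
        mul_le_mul h3 h4 (sum_nonneg fun m _ => fw_nonneg w m) (by positivity)
    _ = 10 * (((y / T) * T) / Real.log y) * e := by ring
    _ = _ := by rw [h5]

theorem split_P {y w M P : ℕ} {X : ℝ}
    (h : (Nat.primeCounting P : ℝ) * ∑ m ∈ Sm w M, fw w m ≤ X) :
    ∑ m ∈ Sm w M, fw w m * ((Nat.primeCounting (y / m) : ℝ) - Nat.primeCounting P) ≥
      ∑ m ∈ Sm w M, fw w m * (Nat.primeCounting (y / m) : ℝ) - X := by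
  have ee : ∑ m ∈ Sm w M, fw w m * ((Nat.primeCounting (y / m) : ℝ) - Nat.primeCounting P) =
      ∑ m ∈ Sm w M, fw w m * (Nat.primeCounting (y / m) : ℝ) -
        (Nat.primeCounting P : ℝ) * ∑ m ∈ Sm w M, fw w m := by
    rw [mul_sum, ← sum_sub_distrib]
    apply sum_congr rfl
    intro m _
    ring
  rw [ee]
  linarith

/-- everything for one `y` -/
theorem survivors_at {y : ℕ} {C x0 Cg η ε c κ u v L Q t U r : ℝ} (hC : 0 < C)
    (hpi : ∀ x : ℝ, x0 ≤ x →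
    |(Nat.primeCounting ⌊x⌋₊ : ℝ) - x / Real.log x| ≤ C * x / (Real.log x) ^ 2) (hCg : 0 < Cg)
    (hgain : ∀ (w M : ℕ) (B : ℝ), 1 ≤ w →
      (∀ N : ℕ, ∑ m ∈ (Sm w N).filter (fun m => M < m), fw w m / m * Real.log m ≤ B) →
      Real.log w - Cg - B ≤ ∑ m ∈ Sm w M, fw w m / m * Real.log m)
    (hη0 : 0 < η) (hη1 : η ≤ 1) (hε0 : 0 < ε) (hε1 : ε ≤ 1)
    (hc0 : 0 ≤ c) (hc : c * (1 + ε) < η) (hκ : κ = η / (1 + ε) - c)
    (hu : Real.log y = u) (hy0 : (0 : ℝ) < y) (huexp : Real.exp v = u)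
    (hvexp : Real.exp L = v) (hLexp : Real.exp Q = L) (hQ160 : 160 ≤ Q) (hQε : 160 ≤ ε * Q)
    (hQlog : Real.log Q ≤ ε / 4 * Q) (hv4 : 4 ≤ v)
    (hvt : 23 / η * v ^ 3 ≤ Real.exp v)
    (hfin : 13 * Real.exp (-((1 + ε / 4) * L)) + (6 * C + 2 + Cg) / Real.exp v + 2 / v ^ 2 ≤
      κ * (Q / (v * L)))
    (hux : 2 * Real.log (max x0 2) ≤ u) (ht : t = η * u / v)
    (hU : U = (1 + ε) * L / Q) (hr : r = (t - 1) / U) :
    ⌊Real.exp r⌋₊ ≤ ⌊(y : ℝ) / Real.exp t⌋₊ ∧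
      (1 + c * (Q / (v * L))) * (Nat.primeCounting y : ℝ) ≤ (1 - 1 / v ^ 2) *
      ∑ m ∈ Sm ⌊Real.exp r⌋₊ ⌊Real.exp t⌋₊, fw ⌊Real.exp r⌋₊ m *
        ((Nat.primeCounting (y / m) : ℝ) - Nat.primeCounting ⌊(y : ℝ) / Real.exp t⌋₊) := by
  have hv0 : 0 < v := by linarith
  have hu0 : 0 < u := by rw [← huexp]; exact Real.exp_pos _
  have hL0 : 0 < L := by rw [← hLexp]; exact Real.exp_pos _
  have hQ0 : 0 < Q := by linarith
  obtain ⟨htv, htu2⟩ := par_t hη0 hη1 huexp hv4 hvt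
  rw [← ht] at htv htu2
  obtain ⟨hU1, hU2, hlogU⟩ := par_U hε0 hε1 hvexp hLexp hQ160 hQlog
  rw [← hU] at hU1 hU2 hlogU
  obtain ⟨hr11, hrt, hrU⟩ := par_r hv4 htv hU1 hU2
  rw [← hr] at hr11 hrt hrU
  have ht1 : 1 ≤ t := by nlinarith
  have hr1 : 1 ≤ r := by linarith
  obtain ⟨hw0, hlogw_le, hlogw_ge, hw1⟩ := floor_bds hr1
  obtain ⟨hM0, hlogM, hlogM_ge, hM1⟩ := floor_bds ht1
  have hMle : ((⌊Real.exp t⌋₊ : ℕ) : ℝ) ≤ Real.exp t := Nat.floor_le (Real.exp_pos t).le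
  have hT0 : 0 < Real.exp t := Real.exp_pos t
  have hyexp : Real.exp u = y := by rw [← hu]; exact Real.exp_log hy0
  have hyT : Real.exp (u / 2) ≤ y / Real.exp t := by
    rw [← hyexp, ← Real.exp_sub]
    exact Real.exp_le_exp.mpr (by linarith)
  have hexpx0 : max x0 2 ≤ Real.exp (u / 2) := by
    have h2 : 0 < max x0 2 := lt_of_lt_of_le (by norm_num) (le_max_right _ _)
    rw [← Real.log_le_iff_le_exp h2]
    linarith
  have hx0e : x0 ≤ Real.exp (u / 2) := (le_max_left _ _).trans hexpx0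
  have h2e : 2 ≤ Real.exp (u / 2) := (le_max_right _ _).trans hexpx0
  have hyx0 : x0 ≤ y := by
    rw [← hyexp]
    exact hx0e.trans (Real.exp_le_exp.mpr (by linarith))
  obtain ⟨w, hw⟩ : ∃ w : ℕ, w = ⌊Real.exp r⌋₊ := ⟨_, rfl⟩
  obtain ⟨M, hM⟩ : ∃ M : ℕ, M = ⌊Real.exp t⌋₊ := ⟨_, rfl⟩
  obtain ⟨P, hP⟩ : ∃ P : ℕ, P = ⌊(y : ℝ) / Real.exp t⌋₊ := ⟨_, rfl⟩
  rw [← hw] at hw0 hlogw_le hlogw_ge hw1 ⊢
  rw [← hM] at hM0 hlogM hlogM_ge hM1 hMle ⊢
  rw [← hP]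
  have hlogw10 : 10 * v ≤ Real.log w := by linarith
  obtain ⟨z, hz⟩ : ∃ z : ℝ, z = Real.log M / Real.log w := ⟨_, rfl⟩
  obtain ⟨hz1, hz2, hz3, hz4⟩ := par_z hε0 hε1 huexp hL0 hQ0 hQε hU hU1 hlogU (by linarith)
    (by linarith) (hr ▸ hlogw_le) hlogM_ge hlogM hz
  obtain ⟨B, hB⟩ : ∃ B : ℝ, B = Real.exp (-((1 - ε / 8) * (z * Real.log z))) := ⟨_, rfl⟩
  obtain ⟨ht1', ht2', ht3'⟩ := tails2 (ε := ε / 8) (by positivity) hz hz1 hz2
    (by linarith) hM1 hB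
  have hB0 : 0 < B := by rw [hB]; exact Real.exp_pos _
  rw [← hB] at hz4
  obtain ⟨e, he⟩ : ∃ e : ℝ, e = Real.exp (-((1 + ε / 4) * L)) := ⟨_, rfl⟩
  have he0 : 0 < e := by rw [he]; exact Real.exp_pos _
  rw [← he] at hz4 hfin
  have hA1lo : 1 - e ≤ ∑ m ∈ Sm w M, fw w m / m := by
    have := mass_v ht1'
    linarith
  have hA2lo : t / U - 2 - Cg - 2 * t * e ≤ ∑ m ∈ Sm w M, fw w m / m * Real.log m := by
    have h1 := hgain w M _ hw1 ht2'
    have h2 : (Real.log M + Real.log w) * B ≤ 2 * t * e := by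
      apply mul_le_mul (by linarith) hz4 hB0.le (by linarith)
    linarith
  have hpiy : (Nat.primeCounting y : ℝ) ≤ y / u + C * y / u ^ 2 := by
    have h1 := hpi (y : ℝ) hyx0
    rw [Nat.floor_natCast, hu] at h1
    have h2 := (abs_le.mp h1).2
    linarith
  have hs1 := sum_primes (w := w) hC hpi hy0 (by rw [hu]; exact hu0) (by rw [hu]; exact hx0e) hT0 hMle
    (by rw [hu]; exact hyT)
  have hs2 := split_P (y := y) (sum_P hy0 (by rw [hu]; exact hu0) (by rw [hu]; exact h2e) hT0 hMle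
    (by rw [hu]; exact hyT) hP hB0 hz4 ht3')
  rw [hu] at hs1 hs2
  refine ⟨?_, ?_⟩
  · rw [hw, hP]
    apply Nat.floor_le_floor
    calc Real.exp r ≤ Real.exp (u / 2) := Real.exp_le_exp.mpr (by linarith)
      _ ≤ y / Real.exp t := hyT
  · exact fin_block hη0 hη1 hε0 hc0 hc hκ huexp hvexp hLexp hQ160 ht hU (by linarith) hy0 hC hCg
      he0 hA1lo (mass_upper w M) hA2lo hfin hpiy hs1 hs2

theorem survivors2 {η ε c : ℝ} (hη0 : 0 < η) (hη1 : η ≤ 1) (hε0 : 0 < ε) (hε1 : ε ≤ 1)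
    (hc0 : 0 ≤ c) (hc : c * (1 + ε) < η) :
    ∀ᶠ y : ℕ in Filter.atTop, w2 η ε y ≤ P2 η y ∧
      (1 + c * (Real.log (Real.log (Real.log (Real.log y))) /
        (Real.log (Real.log y) * Real.log (Real.log (Real.log y))))) *
          (Nat.primeCounting y : ℝ) ≤
      (1 - 1 / (Real.log (Real.log y)) ^ 2) *
      ∑ m ∈ Sm (w2 η ε y) (M2 η y), fw (w2 η ε y) m *
        ((Nat.primeCounting (y / m) : ℝ) - Nat.primeCounting (P2 η y)) := by
  obtain ⟨C, x0, hC, hpi⟩ := PNTE.pi_pnt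
  obtain ⟨Cg, hCg, hgain⟩ := gain_v
  have hll : Filter.Tendsto (fun y : ℕ => Real.log (Real.log (y : ℝ))) Filter.atTop Filter.atTop :=
    Real.tendsto_log_atTop.comp tendsto_logN
  have hlll : Filter.Tendsto (fun y : ℕ => Real.log (Real.log (Real.log (y : ℝ)))) Filter.atTop
      Filter.atTop := Real.tendsto_log_atTop.comp hll
  have hllll : Filter.Tendsto (fun y : ℕ => Real.log (Real.log (Real.log (Real.log (y : ℝ)))))
      Filter.atTop Filter.atTop := Real.tendsto_log_atTop.comp hlll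
  have hκ0 : 0 < η / (1 + ε) - c := by
    rw [sub_pos, lt_div_iff₀ (by linarith)]
    exact hc
  have hevt : ∀ᶠ v : ℝ in Filter.atTop, 23 / η * v ^ 3 ≤ Real.exp v := by
    filter_upwards [ev_lin 3 one_pos one_pos (23 / η)] with v h1
    rw [abs_of_pos (by positivity), Real.exp_neg, ← div_eq_mul_inv, one_mul,
      div_le_one (Real.exp_pos v)] at h1
    exact h1
  have hevQ : ∀ᶠ Q : ℝ in Filter.atTop, Real.log Q ≤ ε / 4 * Q := by
    have h := (Real.isLittleO_log_id_atTop).bound (c := ε / 4) (by positivity)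
    filter_upwards [h, Filter.eventually_ge_atTop 1] with Q h2 h3
    simp only [id, Real.norm_eq_abs] at h2
    rw [abs_of_nonneg (Real.log_nonneg h3), abs_of_nonneg (show 0 ≤ Q by linarith)] at h2
    exact h2
  filter_upwards [hll.eventually hevt, hllll.eventually hevQ,
    hll.eventually (ev_fin2 (E := 6 * C + 2 + Cg) hκ0 (show 0 < ε / 4 by positivity)),
    tendsto_logN.eventually_ge_atTop (2 * Real.log (max x0 2)),
    tendsto_logN.eventually_ge_atTop 100, Filter.eventually_ge_atTop 3,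
    hll.eventually_ge_atTop 4, hlll.eventually_ge_atTop 1,
    hllll.eventually_ge_atTop (160 / ε)] with y hvt hQlog hfin hux hu100 hy3 hv4 hL1 hQ160
  have hQε : 160 ≤ ε * Real.log (Real.log (Real.log (Real.log (y : ℝ)))) := by
    rw [div_le_iff₀ hε0] at hQ160
    linarith
  have hQ160' : 160 ≤ Real.log (Real.log (Real.log (Real.log (y : ℝ)))) := by
    refine le_trans ?_ hQ160
    rw [le_div_iff₀ hε0]
    linarith
  have hy0 : (0 : ℝ) < y := by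
    have : 0 < y := by omega
    exact_mod_cast this
  exact survivors_at hC hpi hCg hgain hη0 hη1 hε0 hε1 hc0 hc rfl rfl hy0
    (Real.exp_log (by linarith)) (Real.exp_log (by linarith)) (Real.exp_log (by linarith))
    hQ160' hQε hQlog hv4 hvt hfin hux rfl rfl rfl

end RHC
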